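import Pool.Agent.Helper29.FT2.Unip

/-!
# Transitivity of the special linear group on pairs of subspaces (MP_cc38df_co)
-/

open Module Submodule

set_option linter.unusedSectionVars false

namespace Pool.Agent.Helper29.FT2

variable {F V : Type*} [Field F] [AddCommGroup V] [Module F V] [FiniteDimensional F V]

theorem map_mul' (g h : V ≃ₗ[F] V) (U : Submodule F V) :
    U.map ((g * h : V ≃ₗ[F] V) : V →ₗ[F] V) =
      (U.map (h : V →ₗ[F] V)).map (g : V →ₗ[F] V) := by
  rw [← Submodule.map_comp]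
  rfl

theorem map_one' (U : Submodule F V) : U.map ((1 : V ≃ₗ[F] V) : V →ₗ[F] V) = U := by
  have : ((1 : V ≃ₗ[F] V) : V →ₗ[F] V) = LinearMap.id := rfl
  rw [this, Submodule.map_id]

/-- a linear equivalence moving a subspace into another one -/
theorem exists_equiv {M M' : Type*} [AddCommGroup M] [Module F M] [FiniteDimensional F M]
    [AddCommGroup M'] [Module F M'] [FiniteDimensional F M'] (h : finrank F M = finrank F M')
    (A : Submodule F M) (A' : Submodule F M') (hA : finrank F A = finrank F A') :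
    ∃ e : M ≃ₗ[F] M', ∀ x ∈ A, e x ∈ A' := by
  obtain ⟨D, hD⟩ := Submodule.exists_isCompl A
  obtain ⟨D', hD'⟩ := Submodule.exists_isCompl A'
  have h1 := Submodule.finrank_add_eq_of_isCompl hD
  have h2 := Submodule.finrank_add_eq_of_isCompl hD'
  let eA : A ≃ₗ[F] A' := LinearEquiv.ofFinrankEq _ _ hA
  let eD : D ≃ₗ[F] D' := LinearEquiv.ofFinrankEq _ _ (by omega)
  refine ⟨(prodEquivOfIsCompl A D hD).symm.trans
    ((LinearEquiv.prodCongr eA eD).trans (prodEquivOfIsCompl A' D' hD')), ?_⟩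
  intro x hx
  have h3 : (prodEquivOfIsCompl A D hD).symm x = ((⟨x, hx⟩ : A), 0) :=
    prodEquivOfIsCompl_symm_apply_left A D hD ⟨x, hx⟩
  rw [LinearEquiv.trans_apply, LinearEquiv.trans_apply, h3]
  have h4 : (LinearEquiv.prodCongr eA eD) ((⟨x, hx⟩ : A), (0 : D)) = (eA ⟨x, hx⟩, 0) := by
    simp
  rw [h4, coe_prodEquivOfIsCompl']
  simp

/-- the same for subspaces `A ≤ M`, `A' ≤ M'` of a space -/
theorem exists_equiv_sub {A M A' M' : Submodule F V} (hM : finrank F M = finrank F M')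
    (hAM : A ≤ M) (hAM' : A' ≤ M') (hA : finrank F A = finrank F A') :
    ∃ e : M ≃ₗ[F] M', ∀ x : M, (x : V) ∈ A → (e x : V) ∈ A' := by
  obtain ⟨e, he⟩ := exists_equiv hM (A.submoduleOf M) (A'.submoduleOf M') (by
    rw [(submoduleOfEquivOfLe hAM).finrank_eq, (submoduleOfEquivOfLe hAM').finrank_eq, hA])
  exact ⟨e, fun x hx => he x hx⟩

/-- adapted decomposition -/
theorem exists_decomp (U W : Submodule F V) : ∃ C E : Submodule F V, U ⊓ W ⊔ C = W ∧ C ≤ E ∧
    IsCompl U E ∧ finrank F (U ⊓ W : Submodule F V) + finrank F C = finrank F W := by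
  obtain ⟨D, hD⟩ := Submodule.exists_isCompl (U ⊓ W)
  have hB : U ⊓ W ⊔ D ⊓ W = W := by
    rw [← sup_inf_assoc_of_le D (inf_le_right : U ⊓ W ≤ W), hD.sup_eq_top, top_inf_eq]
  have hBI : U ⊓ W ⊓ (D ⊓ W) = ⊥ := by
    rw [← inf_assoc, hD.inf_eq_bot, bot_inf_eq]
  have hdis : Disjoint (D ⊓ W) U := by
    rw [disjoint_iff, eq_bot_iff, ← hD.inf_eq_bot]
    intro x hx
    have h1 := mem_inf.mp hx
    have h2 := mem_inf.mp h1.1
    exact mem_inf.mpr ⟨mem_inf.mpr ⟨h1.2, h2.2⟩, h2.1⟩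
  obtain ⟨E, hE, hc⟩ := hdis.exists_isCompl
  refine ⟨D ⊓ W, E, hB, hE, hc.symm, ?_⟩
  have h1 := Submodule.finrank_sup_add_finrank_inf_eq (U ⊓ W) (D ⊓ W)
  rw [hB, hBI, finrank_bot] at h1
  omega

/-- transitivity of the general linear group -/
theorem trans_gl {U W U' W' : Submodule F V} (hU : finrank F U = finrank F U')
    (hW : finrank F W = finrank F W')
    (hUW : finrank F (U ⊓ W : Submodule F V) = finrank F (U' ⊓ W' : Submodule F V)) :
    ∃ g : V ≃ₗ[F] V, U.map (g : V →ₗ[F] V) = U' ∧ W.map (g : V →ₗ[F] V) = W' := by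
  obtain ⟨C, E, hC, hCE, hE, hdC⟩ := exists_decomp U W
  obtain ⟨C', E', hC', hCE', hE', hdC'⟩ := exists_decomp U' W'
  have h1 := Submodule.finrank_add_eq_of_isCompl hE
  have h2 := Submodule.finrank_add_eq_of_isCompl hE'
  obtain ⟨eU, heU⟩ := exists_equiv_sub hU (inf_le_left : U ⊓ W ≤ U) (inf_le_left : U' ⊓ W' ≤ U')
    hUW
  obtain ⟨eE, heE⟩ := exists_equiv_sub (M := E) (M' := E') (by omega) hCE hCE' (by omega)
  let g : V ≃ₗ[F] V := (prodEquivOfIsCompl U E hE).symm.trans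
    ((LinearEquiv.prodCongr eU eE).trans (prodEquivOfIsCompl U' E' hE'))
  have hgU : ∀ x (hx : x ∈ U), g x = eU ⟨x, hx⟩ := by
    intro x hx
    have h3 : (prodEquivOfIsCompl U E hE).symm x = ((⟨x, hx⟩ : U), 0) :=
      prodEquivOfIsCompl_symm_apply_left U E hE ⟨x, hx⟩
    show (prodEquivOfIsCompl U' E' hE') ((LinearEquiv.prodCongr eU eE)
      ((prodEquivOfIsCompl U E hE).symm x)) = _
    rw [h3]
    have h4 : (LinearEquiv.prodCongr eU eE) ((⟨x, hx⟩ : U), (0 : E)) = (eU ⟨x, hx⟩, 0) := by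
      simp
    rw [h4, coe_prodEquivOfIsCompl']
    simp
  have hgE : ∀ x (hx : x ∈ E), g x = eE ⟨x, hx⟩ := by
    intro x hx
    have h3 : (prodEquivOfIsCompl U E hE).symm x = (0, (⟨x, hx⟩ : E)) :=
      prodEquivOfIsCompl_symm_apply_right U E hE ⟨x, hx⟩
    show (prodEquivOfIsCompl U' E' hE') ((LinearEquiv.prodCongr eU eE)
      ((prodEquivOfIsCompl U E hE).symm x)) = _
    rw [h3]
    have h4 : (LinearEquiv.prodCongr eU eE) ((0 : U), (⟨x, hx⟩ : E)) = (0, eE ⟨x, hx⟩) := by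
      simp
    rw [h4, coe_prodEquivOfIsCompl']
    simp
  refine ⟨g, map_eq_of_le ?_ hU, map_eq_of_le ?_ hW⟩
  · intro x hx
    rw [hgU x hx]
    exact (eU ⟨x, hx⟩).2
  · intro x hx
    rw [← hC] at hx
    obtain ⟨i, hi, c, hc, rfl⟩ := mem_sup.mp hx
    rw [map_add, hgU i (mem_inf.mp hi).1, hgE c (hCE hc)]
    apply W'.add_mem
    · exact (mem_inf.mp (heU ⟨i, (mem_inf.mp hi).1⟩ hi)).2
    · have h3 : (eE ⟨c, hCE hc⟩ : V) ∈ C' := heE ⟨c, hCE hc⟩ hc
      have h4 : C' ≤ W' := by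
        rw [← hC']
        exact le_sup_right
      exact h4 h3

/-- a map of given determinant fixing two subspaces -/
theorem exists_det [Nontrivial V] (U W : Submodule F V) (c : Fˣ) :
    ∃ h : V ≃ₗ[F] V, LinearEquiv.det h = c ∧ U.map (h : V →ₗ[F] V) = U ∧
      W.map (h : V →ₗ[F] V) = W := by
  -- a vector and a functional
  have key : ∃ (x : V) (f : Dual F V), f x = 1 ∧ (x ∈ U ∨ ∀ y ∈ U, f y = 0) ∧
      (x ∈ W ∨ ∀ y ∈ W, f y = 0) := by
    by_cases hUW : U ≤ W
    · by_cases hU : U = ⊥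
      · by_cases hW : W = ⊥
        · obtain ⟨x, hx⟩ := exists_ne (0 : V)
          obtain ⟨f, hf, -⟩ := exists_form (F := F) ⊥ (x := x) (by rwa [Submodule.mem_bot])
          refine ⟨x, f, hf, Or.inr ?_, Or.inr ?_⟩
          · intro y hy
            rw [hU, Submodule.mem_bot] at hy
            rw [hy, map_zero]
          · intro y hy
            rw [hW, Submodule.mem_bot] at hy
            rw [hy, map_zero]
        · obtain ⟨x, hx, hx0⟩ := Submodule.exists_mem_ne_zero_of_ne_bot hW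
          obtain ⟨f, hf, -⟩ := exists_form (F := F) ⊥ (x := x) (by rwa [Submodule.mem_bot])
          refine ⟨x, f, hf, Or.inr ?_, Or.inl hx⟩
          intro y hy
          rw [hU, Submodule.mem_bot] at hy
          rw [hy, map_zero]
      · obtain ⟨x, hx, hx0⟩ := Submodule.exists_mem_ne_zero_of_ne_bot hU
        obtain ⟨f, hf, -⟩ := exists_form (F := F) ⊥ (x := x) (by rwa [Submodule.mem_bot])
        exact ⟨x, f, hf, Or.inl hx, Or.inl (hUW hx)⟩
    · obtain ⟨x, hxU, hxW⟩ := SetLike.not_le_iff_exists.mp hUW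
      obtain ⟨f, hf, hfW⟩ := exists_form W hxW
      exact ⟨x, f, hf, Or.inl hxU, Or.inr hfW⟩
  obtain ⟨x, f, hfx, hxU, hxW⟩ := key
  have hu : IsUnit (1 + f (((c : F) - 1) • x)) := by
    rw [map_smul, hfx, smul_eq_mul, mul_one, add_sub_cancel]
    exact c.isUnit
  have happ : ∀ y, LinearEquiv.dilatransvection hu y = y + f y • (((c : F) - 1) • x) :=
    fun y => rfl
  have hfix : ∀ S : Submodule F V, (x ∈ S ∨ ∀ y ∈ S, f y = 0) →
      S.map (LinearEquiv.dilatransvection hu : V →ₗ[F] V) = S := by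
    intro S hS
    apply map_eq_of_le _ rfl
    intro y hy
    rw [happ]
    rcases hS with h | h
    · exact S.add_mem hy (S.smul_mem _ (S.smul_mem _ h))
    · rw [h y hy, zero_smul, add_zero]
      exact hy
  refine ⟨LinearEquiv.dilatransvection hu, ?_, hfix U hxU, hfix W hxW⟩
  apply Units.ext
  rw [LinearEquiv.coe_det, LinearEquiv.dilatransvection.coe_toLinearMap,
    LinearMap.transvection.det, map_smul, hfx, smul_eq_mul, mul_one, add_sub_cancel]

/-- **Transitivity of the special linear group on pairs of subspaces in the same relative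
position.** -/
theorem trans_pair {U W U' W' : Submodule F V} (hU : finrank F U = finrank F U')
    (hW : finrank F W = finrank F W')
    (hUW : finrank F (U ⊓ W : Submodule F V) = finrank F (U' ⊓ W' : Submodule F V)) :
    ∃ g : V ≃ₗ[F] V, LinearEquiv.det g = 1 ∧ U.map (g : V →ₗ[F] V) = U' ∧
      W.map (g : V →ₗ[F] V) = W' := by
  obtain ⟨g, hgU, hgW⟩ := trans_gl hU hW hUW
  rcases subsingleton_or_nontrivial V with hV | hV
  · refine ⟨1, map_one _, ?_, ?_⟩
    · exact Subsingleton.elim _ _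
    · exact Subsingleton.elim _ _
  · obtain ⟨h, hh, hhU, hhW⟩ := exists_det U W (LinearEquiv.det g)⁻¹
    refine ⟨g * h, ?_, ?_, ?_⟩
    · rw [map_mul, hh, mul_inv_cancel]
    · rw [map_mul', hhU, hgU]
    · rw [map_mul', hhW, hgW]

/-- transitivity on the subspaces of given dimension -/
theorem trans_one {U U' : Submodule F V} (hU : finrank F U = finrank F U') :
    ∃ g : V ≃ₗ[F] V, LinearEquiv.det g = 1 ∧ U.map (g : V →ₗ[F] V) = U' := by
  obtain ⟨g, hg, h, -⟩ := trans_pair (W := U) (W' := U') hU hU (by rwa [inf_idem, inf_idem])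
  exact ⟨g, hg, h⟩

end Pool.Agent.Helper29.FT2
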