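import Pool.Agent.Helper29.FT2.Main
import Pool.Agent.Helper29.FT2.Trans

/-!
# Classification of the semipartial geometries on the `k`-dimensional subspaces (MP_cc38df_co)
-/

open Module Submodule Finset

set_option linter.unusedSectionVars false

namespace Pool.Agent.Helper29.FT2

open Pool.Agent.Helper29.FT

variable {F V : Type*} [Field F] [Finite F] [AddCommGroup V] [Module F V] [FiniteDimensional F V]
variable [DecidableEq (Submodule F V)] {B : Finset (Finset (Submodule F V))} {k α s t μ : ℕ}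

open Classical in
/-- the star of `Y`: all `k`-dimensional subspaces containing `Y` -/
noncomputable def star (k : ℕ) (Y : Submodule F V) : Finset (Submodule F V) :=
  {U ∈ Gr F V k | Y ≤ U}

open Classical in
/-- the flat `X`: all `k`-dimensional subspaces contained in `X` -/
noncomputable def flat (k : ℕ) (X : Submodule F V) : Finset (Submodule F V) :=
  {U ∈ Gr F V k | U ≤ X}

/-- the stars of all subspaces of dimension `k - 1` -/
noncomputable def stars (F V : Type*) [Field F] [Finite F] [AddCommGroup V] [Module F V]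
    [FiniteDimensional F V] [DecidableEq (Submodule F V)] (k : ℕ) :
    Finset (Finset (Submodule F V)) :=
  (Gr F V (k - 1)).image (star k)

/-- the flats of all subspaces of dimension `k + 1` -/
noncomputable def flats (F V : Type*) [Field F] [Finite F] [AddCommGroup V] [Module F V]
    [FiniteDimensional F V] [DecidableEq (Submodule F V)] (k : ℕ) :
    Finset (Finset (Submodule F V)) :=
  (Gr F V (k + 1)).image (flat k)

theorem mem_star {Y U : Submodule F V} : U ∈ star k Y ↔ finrank F U = k ∧ Y ≤ U := by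
  classical
  simp only [star, mem_filter, mem_Gr]

theorem mem_flat {X U : Submodule F V} : U ∈ flat k X ↔ finrank F U = k ∧ U ≤ X := by
  classical
  simp only [flat, mem_filter, mem_Gr]

theorem image_star (g : V ≃ₗ[F] V) (Y : Submodule F V) :
    (star k Y).image (fun U => U.map (g : V →ₗ[F] V)) = star k (Y.map (g : V →ₗ[F] V)) := by
  ext U
  rw [mem_image, mem_star]
  constructor
  · rintro ⟨W, hW, rfl⟩
    rw [mem_star] at hW
    exact ⟨by rw [finrank_map', hW.1], Submodule.map_mono hW.2⟩
  · rintro ⟨hU, hY⟩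
    refine ⟨U.map (g.symm : V →ₗ[F] V), ?_, ?_⟩
    · rw [mem_star]
      refine ⟨by rw [finrank_map', hU], ?_⟩
      have h1 := Submodule.map_mono (f := (g.symm : V →ₗ[F] V)) hY
      have h2 : (Y.map (g : V →ₗ[F] V)).map (g.symm : V →ₗ[F] V) = Y := by
        rw [← Submodule.map_comp]
        simp
      rwa [h2] at h1
    · rw [← Submodule.map_comp]
      simp

theorem image_flat (g : V ≃ₗ[F] V) (X : Submodule F V) :
    (flat k X).image (fun U => U.map (g : V →ₗ[F] V)) = flat k (X.map (g : V →ₗ[F] V)) := by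
  ext U
  rw [mem_image, mem_flat]
  constructor
  · rintro ⟨W, hW, rfl⟩
    rw [mem_flat] at hW
    exact ⟨by rw [finrank_map', hW.1], Submodule.map_mono hW.2⟩
  · rintro ⟨hU, hX⟩
    refine ⟨U.map (g.symm : V →ₗ[F] V), ?_, ?_⟩
    · rw [mem_flat]
      refine ⟨by rw [finrank_map', hU], ?_⟩
      have h1 := Submodule.map_mono (f := (g.symm : V →ₗ[F] V)) hX
      have h2 : (X.map (g : V →ₗ[F] V)).map (g.symm : V →ₗ[F] V) = X := by
        rw [← Submodule.map_comp]
        simp
      rwa [h2] at h1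
    · rw [← Submodule.map_comp]
      simp

/-- distinct subspaces meet in a smaller one -/
theorem inf_lt {U W : Submodule F V} (hU : finrank F U = k) (hW : finrank F W = k)
    (hUW : U ≠ W) : finrank F (U ⊓ W : Submodule F V) + 1 ≤ k := by
  have h1 := lt_sup hU hW hUW
  have h2 := Submodule.finrank_sup_add_finrank_inf_eq U W
  omega

/-- two subspaces with a common subspace of dimension `k - 1` -/
theorem adj_of_le {U W Y : Submodule F V} (hU : finrank F U = k) (hW : finrank F W = k)
    (hUW : U ≠ W) (hYU : Y ≤ U) (hYW : Y ≤ W) (hY : finrank F Y + 1 = k) :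
    finrank F (U ⊓ W : Submodule F V) + 1 = k := by
  have h1 := inf_lt hU hW hUW
  have h2 := Submodule.finrank_mono (le_inf hYU hYW)
  omega

/-- two subspaces in a common subspace of dimension `k + 1` -/
theorem adj_of_ge {U W X : Submodule F V} (hU : finrank F U = k) (hW : finrank F W = k)
    (hUW : U ≠ W) (hUX : U ≤ X) (hWX : W ≤ X) (hX : finrank F X = k + 1) :
    finrank F (U ⊓ W : Submodule F V) + 1 = k := by
  have h1 := inf_lt hU hW hUW
  have h2 := Submodule.finrank_mono (sup_le hUX hWX)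
  have h3 := Submodule.finrank_sup_add_finrank_inf_eq U W
  omega

/-- separation of two adjacent subspaces by a third one -/
theorem exists_sep (hk : 2 ≤ k) (hkn : k + 2 ≤ finrank F V) {U W : Submodule F V}
    (hU : finrank F U = k) (hW : finrank F W = k)
    (hUW : finrank F (U ⊓ W : Submodule F V) + 1 = k) :
    ∃ A : Submodule F V, finrank F A = k ∧ finrank F (A ⊓ U : Submodule F V) + 1 = k ∧
      finrank F (A ⊓ W : Submodule F V) + 2 = k := by
  have hsup : finrank F (U ⊔ W : Submodule F V) = k + 1 := by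
    have := Submodule.finrank_sup_add_finrank_inf_eq U W
    omega
  obtain ⟨y, hy, hy0⟩ := exists_notMem (X := U ⊓ W) (Y := (⊥ : Submodule F V))
    (by rw [finrank_bot]; omega)
  obtain ⟨f, hf, -⟩ := exists_form (F := F) ⊥ hy0
  have hy' := mem_inf.mp hy
  have hJ := finrank_inf_ker hy'.1 (f := f) (by rw [hf]; exact one_ne_zero)
  have hJW := finrank_inf_ker hy (f := f) (by rw [hf]; exact one_ne_zero)
  set J := U ⊓ LinearMap.ker f with hJdef
  obtain ⟨z, -, hz⟩ := exists_notMem (X := (⊤ : Submodule F V)) (Y := U ⊔ W)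
    (by rw [finrank_top]; omega)
  have hzU : z ∉ U := fun h => hz (mem_sup_left' h)
  have hJU : J ≤ U := inf_le_left
  have hzJ : z ∉ J := fun h => hzU (hJU h)
  have hA : finrank F (J ⊔ span F {z} : Submodule F V) = k := by
    rw [finrank_sup_span_singleton hzJ]
    omega
  have hAU : (J ⊔ span F {z}) ≠ U := by
    intro h
    apply hzU
    rw [← h]
    exact mem_sup_span z
  refine ⟨J ⊔ span F {z}, hA, ?_, ?_⟩
  · exact adj_of_le hA hU hAU le_sup_left hJU (by omega)
  · have h1 : (J ⊔ span F {z}) ⊓ W = U ⊓ W ⊓ LinearMap.ker f := by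
      apply le_antisymm
      · intro x hx
        have hx' := mem_inf.mp hx
        obtain ⟨j, hj, b, hb, hjb⟩ := mem_sup.mp hx'.1
        obtain ⟨c, rfl⟩ := mem_span_singleton.mp hb
        have hc : c = 0 := by
          by_contra hc
          apply hz
          have h2 : c • z = x - j := by
            rw [← hjb]
            abel
          rw [← (U ⊔ W).smul_mem_iff hc, h2]
          exact (U ⊔ W).sub_mem (le_sup_right (a := U) hx'.2) (le_sup_left (b := W) (hJU hj))
        rw [hc, zero_smul, add_zero] at hjb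
        subst hjb
        have hj' := mem_inf.mp hj
        exact mem_inf.mpr ⟨mem_inf.mpr ⟨hj'.1, hx'.2⟩, hj'.2⟩
      · intro x hx
        have hx' := mem_inf.mp hx
        have hx'' := mem_inf.mp hx'.1
        exact mem_inf.mpr ⟨le_sup_left (b := span F {z}) (mem_inf.mpr ⟨hx''.1, hx'.2⟩), hx''.2⟩
    rw [h1]
    omega

/-- lines have at least three points -/
theorem two_le_s (hB : SLInvariant B) (hS : IsSPG (Gr F V k) B α s t μ)
    (hNL : NonLinear (Gr F V k) B) : 2 ≤ s := by
  have hdim : ∀ l ∈ B, ∀ U ∈ l, finrank F U = k := fun l hl U hU => mem_Gr.mp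
    (hS.lines_sub l hl hU)
  by_contra hs2
  have hs : s = 1 := by
    have := hS.s_pos
    omega
  obtain ⟨U, hU, -⟩ := id hNL
  obtain ⟨l, hl, hUl⟩ := hS.exists_line hU
  have h1 : 1 < #l := by
    rw [hS.line_card l hl]
    omega
  obtain ⟨W, hWl, hWU⟩ := exists_mem_ne h1 U
  have hUW : Coll B U W := ⟨hWU.symm, l, hl, hUl, hWl⟩
  obtain ⟨g, h, hg, hh, hgU, hhW, hgh⟩ := exists_block (U := U) (W := W)
    (by rw [hdim l hl U hUl, hdim l hl W hWl])
  have h2 := coll_map hB hg hUW
  have h3 := coll_map hB hh hUW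
  rw [hgU, hgh] at h2
  rw [hhW] at h3
  exact no_triangle hS hs hNL hUW h3.symm h2

/-- if two adjacent subspaces are collinear then all are -/
theorem coll_of_adj (hB : SLInvariant B) {U W U' W' : Submodule F V} (h : Coll B U W)
    (hU : finrank F U = k) (hW : finrank F W = k)
    (hUW : finrank F (U ⊓ W : Submodule F V) + 1 = k)
    (hU' : finrank F U' = k) (hW' : finrank F W' = k)
    (hUW' : finrank F (U' ⊓ W' : Submodule F V) + 1 = k) : Coll B U' W' := by
  obtain ⟨g, hg, h1, h2⟩ := trans_pair (U := U) (W := W) (U' := U') (W' := W')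
    (by omega) (by omega) (by omega)
  have h3 := coll_map hB hg h
  rwa [h1, h2] at h3

theorem exists_coll (hS : IsSPG (Gr F V k) B α s t μ) (hNL : NonLinear (Gr F V k) B) :
    ∃ U W, Coll B U W := by
  obtain ⟨U, hU, -⟩ := hNL
  obtain ⟨l, hl, hUl⟩ := hS.exists_line hU
  have h1 : 1 < #l := by
    rw [hS.line_card l hl]
    have := hS.s_pos
    omega
  obtain ⟨W, hWl, hWU⟩ := exists_mem_ne h1 U
  exact ⟨U, W, hWU.symm, l, hl, hUl, hWl⟩

theorem coll_dim (hS : IsSPG (Gr F V k) B α s t μ) {U W : Submodule F V} (h : Coll B U W) :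
    finrank F U = k ∧ finrank F W = k := by
  obtain ⟨-, l, hl, hU, hW⟩ := h
  exact ⟨mem_Gr.mp (hS.lines_sub l hl hU), mem_Gr.mp (hS.lines_sub l hl hW)⟩

/-- the possible values of `k` -/
theorem range_k (hB : SLInvariant B) (hS : IsSPG (Gr F V k) B α s t μ)
    (hNL : NonLinear (Gr F V k) B) : 2 ≤ k ∧ k + 2 ≤ finrank F V := by
  by_contra hcon
  have hall : ∀ U W : Submodule F V, finrank F U = k → finrank F W = k → U ≠ W →
      finrank F (U ⊓ W : Submodule F V) + 1 = k := by
    intro U W hU hW hUW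
    have h1 := inf_lt hU hW hUW
    have h2 := Submodule.finrank_sup_add_finrank_inf_eq U W
    have h3 := Submodule.finrank_le (U ⊔ W)
    omega
  obtain ⟨U, W, h⟩ := exists_coll hS hNL
  obtain ⟨hU, hW⟩ := coll_dim hS h
  obtain ⟨A, hA, C, hC, hAC, hn⟩ := hNL
  rw [mem_Gr] at hA hC
  exact hn (coll_of_adj hB h hU hW (hall U W hU hW h.1) hA hC (hall A C hA hC hAC))

/-- collinear means adjacent -/
theorem coll_iff_adj (hB : SLInvariant B) (hS : IsSPG (Gr F V k) B α s t μ)
    (hNL : NonLinear (Gr F V k) B) {U W : Submodule F V} (hU : finrank F U = k)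
    (hW : finrank F W = k) : Coll B U W ↔ finrank F (U ⊓ W : Submodule F V) + 1 = k := by
  obtain ⟨hk2, hkn⟩ := range_k hB hS hNL
  have hs2 := two_le_s hB hS hNL
  have hdim : ∀ l ∈ B, ∀ U ∈ l, finrank F U = k := fun l hl U hU => mem_Gr.mp
    (hS.lines_sub l hl hU)
  have hadj : ∀ U W, Coll B U W → finrank F (U ⊓ W : Submodule F V) + 1 = k := by
    rintro U W ⟨hUW, l, hl, hU, hW⟩
    refine adj (L := (l : Set (Submodule F V))) hk2 (line_cl hB hS hl) (hdim l hl) ?_ ?_
      (by omega) hU hW hUW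
    · intro U' _ W' _ _
      have h1 : ∃ T ∈ l, T ∉ ({U', W'} : Finset (Submodule F V)) := by
        by_contra hcon
        push Not at hcon
        have h2 := card_le_card (show l ⊆ {U', W'} from hcon)
        rw [hS.line_card l hl] at h2
        have h3 := Finset.card_le_two (a := U') (b := W')
        omega
      obtain ⟨T, hT, hT2⟩ := h1
      rw [Finset.mem_insert, Finset.mem_singleton, not_or] at hT2
      exact ⟨T, hT, hT2.1, hT2.2⟩
    · by_contra hcon
      push Not at hcon
      obtain ⟨x, hx, y, hy, hxy, hn⟩ := hNL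
      exact hn ⟨hxy, l, hl, hcon x (mem_Gr.mp hx), hcon y (mem_Gr.mp hy)⟩
  refine ⟨hadj U W, fun h => ?_⟩
  obtain ⟨A, C, hAC⟩ := exists_coll hS hNL
  obtain ⟨hA, hC⟩ := coll_dim hS hAC
  exact coll_of_adj hB hAC hA hC (hadj A C hAC) hU hW h

/-- lines are maximal cliques -/
theorem mem_of_adj (hB : SLInvariant B) (hS : IsSPG (Gr F V k) B α s t μ)
    (hNL : NonLinear (Gr F V k) B) {l : Finset (Submodule F V)} (hl : l ∈ B)
    {T : Submodule F V} (hT : finrank F T = k)
    (hadj : ∀ U ∈ l, T ≠ U → finrank F (T ⊓ U : Submodule F V) + 1 = k) : T ∈ l := by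
  by_contra hTl
  obtain ⟨hk2, hkn⟩ := range_k hB hS hNL
  have hs2 := two_le_s hB hS hNL
  have hdim : ∀ U ∈ l, finrank F U = k := fun U hU => mem_Gr.mp (hS.lines_sub l hl hU)
  have hα : α = s + 1 := by
    have h1 : ({b ∈ l | Coll B T b} : Finset _) = l := by
      apply filter_true_of_mem
      intro U hU
      rw [coll_iff_adj hB hS hNL hT (hdim U hU)]
      exact hadj U hU (fun h => hTl (h ▸ hU))
    have h2 := hS.antiflag' (mem_Gr.mpr hT) hl hTl
    rw [h1, hS.line_card l hl] at h2
    omega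
  have h1 : 1 < #l := by
    rw [hS.line_card l hl]
    omega
  obtain ⟨U, hU, W, hW, hUW⟩ := Finset.one_lt_card.mp h1
  have h2 : Coll B U W := ⟨hUW, l, hl, hU, hW⟩
  obtain ⟨A, hA, hAU, hAW⟩ := exists_sep hk2 hkn (hdim U hU) (hdim W hW)
    ((coll_iff_adj hB hS hNL (hdim U hU) (hdim W hW)).mp h2)
  have hAl : A ∉ l := by
    intro hAl
    have h3 : A ≠ W := by
      rintro rfl
      rw [inf_idem] at hAW
      omega
    have h4 := (coll_iff_adj hB hS hNL hA (hdim W hW)).mp ⟨h3, l, hl, hAl, hW⟩
    omega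
  have h3 : U ∈ ({b ∈ l | Coll B A b} : Finset _) :=
    mem_filter.mpr ⟨hU, (coll_iff_adj hB hS hNL hA (hdim U hU)).mpr hAU⟩
  rcases hS.antiflag' (mem_Gr.mpr hA) hl hAl with h4 | h4
  · rw [Finset.card_eq_zero] at h4
    rw [h4] at h3
    exact Finset.notMem_empty _ h3
  · have h5 : ({b ∈ l | Coll B A b} : Finset _) = l := by
      apply eq_of_subset_of_card_le (filter_subset _ _)
      rw [h4, hS.line_card l hl, hα]
    have h6 : W ∈ ({b ∈ l | Coll B A b} : Finset _) := by
      rw [h5]
      exact hW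
    have h7 := (coll_iff_adj hB hS hNL hA (hdim W hW)).mp (mem_filter.mp h6).2
    omega

/-- a subspace meeting `U` and `W` in different hyperplanes lies in their sum -/
theorem le_of_inf {T R S X : Submodule F V} (hT : finrank F T = k)
    (hR : finrank F (T ⊓ R : Submodule F V) + 1 = k)
    (hS : finrank F (T ⊓ S : Submodule F V) + 1 = k) (hne : T ⊓ R ≠ T ⊓ S)
    (h1 : T ⊓ R ≤ X) (h2 : T ⊓ S ≤ X) : T ≤ X := by
  have h3 : T ⊓ R ⊔ T ⊓ S = T := by
    apply Submodule.eq_of_le_of_finrank_le (sup_le inf_le_left inf_le_left)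
    by_contra hcon
    push Not at hcon
    have h4 : T ⊓ R = T ⊓ R ⊔ T ⊓ S :=
      Submodule.eq_of_le_of_finrank_le le_sup_left (by omega)
    have h5 : T ⊓ S = T ⊓ R ⊔ T ⊓ S :=
      Submodule.eq_of_le_of_finrank_le le_sup_right (by omega)
    exact hne (h4.trans h5.symm)
  rw [← h3]
  exact sup_le h1 h2

/-- every line is a star or a flat -/
theorem line_type (hB : SLInvariant B) (hS : IsSPG (Gr F V k) B α s t μ)
    (hNL : NonLinear (Gr F V k) B) {l : Finset (Submodule F V)} (hl : l ∈ B) :
    (∃ Y : Submodule F V, finrank F Y + 1 = k ∧ l = star k Y) ∨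
      (∃ X : Submodule F V, finrank F X = k + 1 ∧ l = flat k X) := by
  obtain ⟨hk2, hkn⟩ := range_k hB hS hNL
  have hs2 := two_le_s hB hS hNL
  have hdim : ∀ U ∈ l, finrank F U = k := fun U hU => mem_Gr.mp (hS.lines_sub l hl hU)
  have hadj : ∀ U ∈ l, ∀ W ∈ l, U ≠ W → finrank F (U ⊓ W : Submodule F V) + 1 = k :=
    fun U hU W hW hUW => (coll_iff_adj hB hS hNL (hdim U hU) (hdim W hW)).mp
      ⟨hUW, l, hl, hU, hW⟩
  have h1 : 1 < #l := by
    rw [hS.line_card l hl]
    omega
  obtain ⟨U, hU, W, hW, hUW⟩ := Finset.one_lt_card.mp h1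
  have hY := hadj U hU W hW hUW
  have hX : finrank F (U ⊔ W : Submodule F V) = k + 1 := by
    have := Submodule.finrank_sup_add_finrank_inf_eq U W
    have := hdim U hU
    have := hdim W hW
    omega
  by_cases hcase : ∀ T ∈ l, U ⊓ W ≤ T
  · left
    refine ⟨U ⊓ W, hY, ?_⟩
    ext T
    rw [mem_star]
    constructor
    · intro hT
      exact ⟨hdim T hT, hcase T hT⟩
    · rintro ⟨hT, hYT⟩
      apply mem_of_adj hB hS hNL hl hT
      intro R hR hTR
      exact adj_of_le hT (hdim R hR) hTR hYT (hcase R hR) hY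
  · right
    push Not at hcase
    obtain ⟨T, hT, hYT⟩ := hcase
    have key : ∀ T ∈ l, ¬ U ⊓ W ≤ T → T ≤ U ⊔ W := by
      intro T hT hYT
      have hTU : T ≠ U := by
        rintro rfl
        exact hYT inf_le_left
      have hTW : T ≠ W := by
        rintro rfl
        exact hYT inf_le_right
      have h2 := hadj T hT U hU hTU
      have h3 := hadj T hT W hW hTW
      refine le_of_inf (hdim T hT) h2 h3 ?_ (inf_le_right.trans le_sup_left)
        (inf_le_right.trans le_sup_right)
      intro h4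
      apply hYT
      have h5 : T ⊓ U = U ⊓ W := by
        apply Submodule.eq_of_le_of_finrank_eq
        · apply le_inf inf_le_right
          rw [h4]
          exact inf_le_right
        · omega
      rw [← h5]
      exact inf_le_left
    have hTX := key T hT hYT
    have hall : ∀ R ∈ l, R ≤ U ⊔ W := by
      intro R hR
      by_cases hYR : U ⊓ W ≤ R
      · have hRT : R ≠ T := by
          rintro rfl
          exact hYT hYR
        have h2 := hadj R hR T hT hRT
        have h3 : R ⊓ (U ⊓ W) = U ⊓ W := inf_eq_right.mpr hYR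
        refine le_of_inf (S := U ⊓ W) (hdim R hR) h2 (by rw [h3]; exact hY) ?_
          (inf_le_right.trans hTX) (inf_le_right.trans (inf_le_left.trans le_sup_left))
        intro h4
        apply hYT
        rw [h3] at h4
        rw [← h4]
        exact inf_le_right
      · exact key R hR hYR
    refine ⟨U ⊔ W, hX, ?_⟩
    ext R
    rw [mem_flat]
    constructor
    · intro hR
      exact ⟨hdim R hR, hall R hR⟩
    · rintro ⟨hR, hRX⟩
      apply mem_of_adj hB hS hNL hl hR
      intro S hSl hRS
      exact adj_of_ge hR (hdim S hSl) hRS hRX (hall S hSl) hX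

/-- two distinct elements of a star within a flat -/
theorem exists_two {Y X : Submodule F V} (hY : finrank F Y + 1 = k) (hX : finrank F X = k + 1)
    (hYX : Y ≤ X) : ∃ U W : Submodule F V, finrank F U = k ∧ finrank F W = k ∧ U ≠ W ∧
      Y ≤ U ∧ Y ≤ W ∧ U ≤ X ∧ W ≤ X := by
  obtain ⟨U, hYU, hUX, hU⟩ := exists_between (m := k) hYX (by omega) (by omega)
  obtain ⟨x, hxX, hxU⟩ := exists_notMem (X := X) (Y := U) (by omega)
  have hxY : x ∉ Y := fun h => hxU (hYU h)
  refine ⟨U, Y ⊔ span F {x}, hU, ?_, ?_, hYU, le_sup_left, hUX, sup_le hYX ?_⟩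
  · rw [finrank_sup_span_singleton hxY]
    omega
  · intro h
    apply hxU
    rw [h]
    exact mem_sup_span x
  · rw [span_singleton_le_iff_mem]
    exact hxX

theorem star_ne_flat (hk2 : k + 2 ≤ finrank F V) {Y X : Submodule F V} (hY : finrank F Y + 1 = k)
    (hX : finrank F X = k + 1) : star k Y ≠ flat k X := by
  intro h
  obtain ⟨z, -, hz⟩ := exists_notMem (X := (⊤ : Submodule F V)) (Y := X ⊔ Y) (by
    rw [finrank_top]
    by_contra hcon
    push Not at hcon
    obtain ⟨U, hYU, -, hU⟩ := exists_between (m := k) (le_top : Y ≤ ⊤) (by omega)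
      (by rw [finrank_top]; omega)
    have h1 : U ∈ flat k X := by
      rw [← h, mem_star]
      exact ⟨hU, hYU⟩
    have h2 : X ⊔ Y = X := by
      rw [sup_eq_left]
      exact hYU.trans (mem_flat.mp h1).2
    rw [h2] at hcon
    omega)
  have hzY : z ∉ Y := fun h => hz (le_sup_right (a := X) h)
  have h1 : Y ⊔ span F {z} ∈ flat k X := by
    rw [← h, mem_star]
    refine ⟨?_, le_sup_left⟩
    rw [finrank_sup_span_singleton hzY]
    omega
  exact hz (mem_sup_left' ((mem_flat.mp h1).2 (mem_sup_span z)))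

/-- **Necessity.** -/
theorem necessity (hB : SLInvariant B) (hS : IsSPG (Gr F V k) B α s t μ)
    (hNL : NonLinear (Gr F V k) B) : 2 ≤ k ∧ k + 2 ≤ finrank F V ∧
      (k = 2 ∨ k + 2 = finrank F V) ∧ (B = stars F V k ∨ B = flats F V k) := by
  obtain ⟨hk2, hkn⟩ := range_k hB hS hNL
  refine ⟨hk2, hkn, ?_, ?_⟩
  · by_contra hcon
    exact no_spg (by omega) (by omega) hB hS hNL
  obtain ⟨U, W, -, l, hl, -, -⟩ := exists_coll hS hNL
  have hstar : ∀ Y Y' : Submodule F V, finrank F Y = finrank F Y' → star k Y ∈ B →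
      star k Y' ∈ B := by
    intro Y Y' hYY hY
    obtain ⟨g, hg, hgY⟩ := trans_one hYY
    have h1 := hB g hg _ hY
    rwa [image_star, hgY] at h1
  have hflat : ∀ Y Y' : Submodule F V, finrank F Y = finrank F Y' → flat k Y ∈ B →
      flat k Y' ∈ B := by
    intro Y Y' hYY hY
    obtain ⟨g, hg, hgY⟩ := trans_one hYY
    have h1 := hB g hg _ hY
    rwa [image_flat, hgY] at h1
  -- a star and a flat cannot both be lines
  have hmix : ∀ Y X : Submodule F V, finrank F Y + 1 = k → finrank F X = k + 1 →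
      star k Y ∈ B → flat k X ∈ B → False := by
    intro Y X hY hX hYB hXB
    obtain ⟨Y', -, hYX, hY'⟩ := exists_between (F := F) (A := (⊥ : Submodule F V)) (X := X)
      (m := k - 1) bot_le (by rw [finrank_bot]; omega) (by omega)
    have h1 := hstar Y Y' (by omega) hYB
    obtain ⟨A, C, hA, hC, hAC, hYA, hYC, hAX, hCX⟩ := exists_two (k := k) (by omega) hX hYX
    exact star_ne_flat hkn (by omega) hX
      (hS.two_points _ h1 _ hXB A C hAC (mem_star.mpr ⟨hA, hYA⟩) (mem_star.mpr ⟨hC, hYC⟩)
        (mem_flat.mpr ⟨hA, hAX⟩) (mem_flat.mpr ⟨hC, hCX⟩))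
  rcases line_type hB hS hNL hl with ⟨Y, hY, rfl⟩ | ⟨X, hX, rfl⟩
  · left
    ext m
    rw [stars, mem_image]
    constructor
    · intro hm
      rcases line_type hB hS hNL hm with ⟨Y', hY', rfl⟩ | ⟨X, hX, rfl⟩
      · exact ⟨Y', mem_Gr.mpr (by omega), rfl⟩
      · exact (hmix Y X hY hX hl hm).elim
    · rintro ⟨Y', hY', rfl⟩
      rw [mem_Gr] at hY'
      exact hstar Y Y' (by omega) hl
  · right
    ext m
    rw [flats, mem_image]
    constructor
    · intro hm
      rcases line_type hB hS hNL hm with ⟨Y', hY', rfl⟩ | ⟨X', hX', rfl⟩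
      · exact (hmix Y' X hY' hX hm hl).elim
      · exact ⟨X', mem_Gr.mpr (by omega), rfl⟩
    · rintro ⟨Y', hY', rfl⟩
      rw [mem_Gr] at hY'
      exact hflat X Y' (by omega) hl

end Pool.Agent.Helper29.FT2
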