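import Pool.Agent.Helper29.FT.Geo

/-!
# Semipartial geometries from transitivity (MP_cc38df_co)
-/

open Finset

set_option linter.unusedSectionVars false

namespace Pool.Agent.Helper29.FT2

open Pool.Agent.Helper29.FT

variable {V : Type*} [DecidableEq V] {P : Finset V} {B : Finset (Finset V)}

/-- automorphisms of `(P, B)` -/
structure IsAut (P : Finset V) (B : Finset (Finset V)) (σ : Equiv.Perm V) : Prop where
  pts : ∀ x, σ x ∈ P ↔ x ∈ P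
  lines : ∀ l, l.map σ.toEmbedding ∈ B ↔ l ∈ B

variable {σ : Equiv.Perm V}

theorem map_symm_map (σ : Equiv.Perm V) (m : Finset V) :
    (m.map σ.symm.toEmbedding).map σ.toEmbedding = m := by
  rw [Finset.map_map]
  ext x
  simp

theorem mem_map' (σ : Equiv.Perm V) (m : Finset V) (x : V) :
    σ x ∈ m.map σ.toEmbedding ↔ x ∈ m := by
  exact Finset.mem_map' σ.toEmbedding

theorem IsAut.coll (h : IsAut P B σ) (a b : V) : Coll B (σ a) (σ b) ↔ Coll B a b := by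
  constructor
  · rintro ⟨hne, l, hl, ha, hb⟩
    rw [← map_symm_map σ l] at hl ha hb
    rw [mem_map'] at ha hb
    exact ⟨fun h' => hne (by rw [h']), _, (h.lines _).mp hl, ha, hb⟩
  · rintro ⟨hne, l, hl, ha, hb⟩
    exact ⟨fun h' => hne (σ.injective h'), _, (h.lines _).mpr hl, (mem_map' σ l a).mpr ha,
      (mem_map' σ l b).mpr hb⟩

theorem IsAut.deg (h : IsAut P B σ) (a : V) : #{l ∈ B | σ a ∈ l} = #{l ∈ B | a ∈ l} := by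
  symm
  refine card_bij (fun l _ => l.map σ.toEmbedding) ?_ ?_ ?_
  · intro l hl
    rw [mem_filter] at hl ⊢
    exact ⟨(h.lines l).mpr hl.1, (mem_map' σ l a).mpr hl.2⟩
  · intro l _ m _ hlm
    exact map_injective _ hlm
  · intro m hm
    rw [mem_filter] at hm
    refine ⟨m.map σ.symm.toEmbedding, ?_, map_symm_map σ m⟩
    rw [mem_filter, ← h.lines, ← mem_map' σ, map_symm_map]
    exact hm

theorem IsAut.anti (h : IsAut P B σ) (a : V) (l : Finset V) :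
    #{m ∈ B | σ a ∈ m ∧ (m ∩ l.map σ.toEmbedding).Nonempty} =
      #{m ∈ B | a ∈ m ∧ (m ∩ l).Nonempty} := by
  symm
  refine card_bij (fun l _ => l.map σ.toEmbedding) ?_ ?_ ?_
  · intro m hm
    rw [mem_filter] at hm ⊢
    refine ⟨(h.lines m).mpr hm.1, (mem_map' σ m a).mpr hm.2.1, ?_⟩
    rw [← Finset.map_inter]
    exact hm.2.2.map
  · intro l _ m _ hlm
    exact map_injective _ hlm
  · intro m hm
    rw [mem_filter] at hm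
    refine ⟨m.map σ.symm.toEmbedding, ?_, map_symm_map σ m⟩
    rw [mem_filter, ← h.lines, ← mem_map' σ, map_symm_map]
    refine ⟨hm.1, hm.2.1, ?_⟩
    rw [← Finset.map_nonempty (f := σ.toEmbedding), Finset.map_inter, map_symm_map]
    exact hm.2.2

theorem IsAut.common (h : IsAut P B σ) (a b : V) :
    #{c ∈ P | Coll B (σ a) c ∧ Coll B (σ b) c} = #{c ∈ P | Coll B a c ∧ Coll B b c} := by
  symm
  refine card_bij (fun c _ => σ c) ?_ ?_ ?_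
  · intro c hc
    rw [mem_filter] at hc ⊢
    exact ⟨(h.pts c).mpr hc.1, (h.coll a c).mpr hc.2.1, (h.coll b c).mpr hc.2.2⟩
  · intro l _ m _ hlm
    exact σ.injective hlm
  · intro c hc
    rw [mem_filter] at hc
    refine ⟨σ.symm c, ?_, σ.apply_symm_apply c⟩
    rw [mem_filter, ← h.pts, ← h.coll a, ← h.coll b, σ.apply_symm_apply]
    exact hc

/-- a semipartial geometry from transitivity assumptions -/
theorem spg_of_trans (hsub : ∀ l ∈ B, l ⊆ P)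
    (htwo : ∀ l ∈ B, ∀ m ∈ B, ∀ a b, a ≠ b → a ∈ l → b ∈ l → a ∈ m → b ∈ m → l = m)
    (hpt : ∀ a ∈ P, ∀ b ∈ P, ∃ σ, IsAut P B σ ∧ σ a = b)
    (hln : ∀ l ∈ B, ∀ m ∈ B, ∃ σ : Equiv.Perm V, IsAut P B σ ∧ l.map σ.toEmbedding = m)
    (haf : ∀ a ∈ P, ∀ l ∈ B, a ∉ l → (∃ b ∈ l, Coll B a b) → ∀ a' ∈ P, ∀ l' ∈ B, a' ∉ l' →
      (∃ b ∈ l', Coll B a' b) → ∃ σ : Equiv.Perm V, IsAut P B σ ∧ σ a = a' ∧
        l.map σ.toEmbedding = l')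
    (hnc : ∀ a ∈ P, ∀ b ∈ P, a ≠ b → ¬ Coll B a b → ∀ a' ∈ P, ∀ b' ∈ P, a' ≠ b' →
      ¬ Coll B a' b' → ∃ σ, IsAut P B σ ∧ σ a = a' ∧ σ b = b')
    (h1 : ∃ l ∈ B, 2 ≤ #l) (h2 : ∃ a ∈ P, 2 ≤ #{l ∈ B | a ∈ l})
    (h3 : ∃ a ∈ P, ∃ l ∈ B, a ∉ l ∧ ∃ b ∈ l, Coll B a b)
    (h4 : ∃ a ∈ P, ∃ b ∈ P, a ≠ b ∧ ¬ Coll B a b ∧ ∃ c ∈ P, Coll B a c ∧ Coll B b c) :
    ∃ α s t μ, IsSPG P B α s t μ := by
  obtain ⟨l₀, hl₀, hl₀2⟩ := h1
  obtain ⟨a₀, ha₀, ha₀2⟩ := h2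
  obtain ⟨a₁, ha₁, l₁, hl₁, hal₁, b₁, hb₁, hab₁⟩ := h3
  obtain ⟨a₂, ha₂, b₂, hb₂, hab₂, hnc₂, c₂, hc₂, hac₂, hbc₂⟩ := h4
  refine ⟨#{m ∈ B | a₁ ∈ m ∧ (m ∩ l₁).Nonempty}, #l₀ - 1, #{l ∈ B | a₀ ∈ l} - 1,
    #{c ∈ P | Coll B a₂ c ∧ Coll B b₂ c}, ⟨by omega, by omega, ?_, ?_, hsub, htwo, ?_, ?_,
      ?_, ?_⟩⟩
  · obtain ⟨-, m, hm, ham, hbm⟩ := hab₁
    exact card_pos.mpr ⟨m, mem_filter.mpr ⟨hm, ham, b₁, mem_inter.mpr ⟨hbm, hb₁⟩⟩⟩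
  · exact card_pos.mpr ⟨c₂, mem_filter.mpr ⟨hc₂, hac₂, hbc₂⟩⟩
  · intro a ha
    obtain ⟨σ, hσ, rfl⟩ := hpt a₀ ha₀ a ha
    rw [hσ.deg]
    omega
  · intro l hl
    obtain ⟨σ, hσ, rfl⟩ := hln l₀ hl₀ l hl
    rw [card_map]
    omega
  · intro a ha l hl hal
    by_cases hex : ∃ b ∈ l, Coll B a b
    · right
      obtain ⟨σ, hσ, rfl, rfl⟩ := haf a₁ ha₁ l₁ hl₁ hal₁ ⟨b₁, hb₁, hab₁⟩ a ha l hl hal hex
      rw [hσ.anti]
    · left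
      rw [Finset.card_eq_zero, filter_eq_empty_iff]
      rintro m hm ⟨ham, b, hb⟩
      rw [mem_inter] at hb
      apply hex
      refine ⟨b, hb.2, ?_, m, hm, ham, hb.1⟩
      rintro rfl
      exact hal hb.2
  · intro a ha b hb hab hn
    obtain ⟨σ, hσ, rfl, rfl⟩ := hnc a₂ ha₂ b₂ hb₂ hab₂ hnc₂ a ha b hb hab hn
    rw [hσ.common]

end Pool.Agent.Helper29.FT2
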