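import Pool.Agent.Helper29.FT2.Class
import Pool.Agent.Helper29.FT2.Aut

/-!
# The two geometries on the subspaces are semipartial geometries (MP_cc38df_co)
-/

open Module Submodule Finset

set_option linter.unusedSectionVars false

namespace Pool.Agent.Helper29.FT2

open Pool.Agent.Helper29.FT

variable {F V : Type*} [Field F] [Finite F] [AddCommGroup V] [Module F V] [FiniteDimensional F V]
variable [DecidableEq (Submodule F V)] {B : Finset (Finset (Submodule F V))} {k : ℕ}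

/-- the action on the subspaces -/
def act (g : V ≃ₗ[F] V) : Equiv.Perm (Submodule F V) where
  toFun U := U.map (g : V →ₗ[F] V)
  invFun U := U.map (g.symm : V →ₗ[F] V)
  left_inv U := by
    show (U.map (g : V →ₗ[F] V)).map (g.symm : V →ₗ[F] V) = U
    rw [← Submodule.map_comp]
    simp
  right_inv U := by
    show (U.map (g.symm : V →ₗ[F] V)).map (g : V →ₗ[F] V) = U
    rw [← Submodule.map_comp]
    simp

theorem act_apply (g : V ≃ₗ[F] V) (U : Submodule F V) : act g U = U.map (g : V →ₗ[F] V) := rfl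

theorem map_act (g : V ≃ₗ[F] V) (l : Finset (Submodule F V)) :
    l.map (act g).toEmbedding = l.image (fun U => U.map (g : V →ₗ[F] V)) := by
  rw [Finset.map_eq_image]
  rfl

theorem isAut_of (h : ∀ g : V ≃ₗ[F] V, ∀ l ∈ B, l.map (act g).toEmbedding ∈ B)
    (g : V ≃ₗ[F] V) : IsAut (Gr F V k) B (act g) := by
  refine ⟨?_, ?_⟩
  · intro x
    rw [mem_Gr, mem_Gr, act_apply, finrank_map']
  · intro l
    refine ⟨fun hl => ?_, h g l⟩
    have h1 := h g.symm _ hl
    have h2 : (l.map (act g).toEmbedding).map (act g.symm).toEmbedding = l :=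
      map_symm_map (act g).symm l
    rwa [h2] at h1

theorem mem_stars (hk : 1 ≤ k) {l : Finset (Submodule F V)} :
    l ∈ stars F V k ↔ ∃ Y : Submodule F V, finrank F Y + 1 = k ∧ l = star k Y := by
  rw [stars, mem_image]
  constructor
  · rintro ⟨Y, hY, rfl⟩
    rw [mem_Gr] at hY
    exact ⟨Y, by omega, rfl⟩
  · rintro ⟨Y, hY, rfl⟩
    exact ⟨Y, mem_Gr.mpr (by omega), rfl⟩

theorem mem_flats {l : Finset (Submodule F V)} :
    l ∈ flats F V k ↔ ∃ X : Submodule F V, finrank F X = k + 1 ∧ l = flat k X := by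
  rw [flats, mem_image]
  constructor
  · rintro ⟨Y, hY, rfl⟩
    rw [mem_Gr] at hY
    exact ⟨Y, by omega, rfl⟩
  · rintro ⟨Y, hY, rfl⟩
    exact ⟨Y, mem_Gr.mpr (by omega), rfl⟩

theorem stars_act (hk : 1 ≤ k) (g : V ≃ₗ[F] V) (l : Finset (Submodule F V))
    (hl : l ∈ stars F V k) : l.map (act g).toEmbedding ∈ stars F V k := by
  rw [mem_stars hk] at hl ⊢
  obtain ⟨Y, hY, rfl⟩ := hl
  exact ⟨Y.map (g : V →ₗ[F] V), by rw [finrank_map', hY], by rw [map_act, image_star]⟩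

theorem flats_act (g : V ≃ₗ[F] V) (l : Finset (Submodule F V))
    (hl : l ∈ flats F V k) : l.map (act g).toEmbedding ∈ flats F V k := by
  rw [mem_flats] at hl ⊢
  obtain ⟨Y, hY, rfl⟩ := hl
  exact ⟨Y.map (g : V →ₗ[F] V), by rw [finrank_map', hY], by rw [map_act, image_flat]⟩

theorem coll_stars (hk : 1 ≤ k) {U W : Submodule F V} (hU : finrank F U = k)
    (hW : finrank F W = k) :
    Coll (stars F V k) U W ↔ finrank F (U ⊓ W : Submodule F V) + 1 = k := by
  constructor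
  · rintro ⟨hne, l, hl, hUl, hWl⟩
    obtain ⟨Y, hY, rfl⟩ := (mem_stars hk).mp hl
    exact adj_of_le hU hW hne (mem_star.mp hUl).2 (mem_star.mp hWl).2 hY
  · intro h
    refine ⟨?_, star k (U ⊓ W), (mem_stars hk).mpr ⟨_, h, rfl⟩, mem_star.mpr ⟨hU, inf_le_left⟩,
      mem_star.mpr ⟨hW, inf_le_right⟩⟩
    rintro rfl
    rw [inf_idem] at h
    omega

theorem coll_flats {U W : Submodule F V} (hU : finrank F U = k)
    (hW : finrank F W = k) :
    Coll (flats F V k) U W ↔ finrank F (U ⊓ W : Submodule F V) + 1 = k := by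
  constructor
  · rintro ⟨hne, l, hl, hUl, hWl⟩
    obtain ⟨Y, hY, rfl⟩ := mem_flats.mp hl
    exact adj_of_ge hU hW hne (mem_flat.mp hUl).2 (mem_flat.mp hWl).2 hY
  · intro h
    have h1 := Submodule.finrank_sup_add_finrank_inf_eq U W
    refine ⟨?_, flat k (U ⊔ W), mem_flats.mpr ⟨_, by omega, rfl⟩, mem_flat.mpr ⟨hU, le_sup_left⟩,
      mem_flat.mpr ⟨hW, le_sup_right⟩⟩
    rintro rfl
    rw [inf_idem] at h
    omega

theorem star_two {Y Y' U W : Submodule F V} (hUW : U ≠ W) (hY : finrank F Y + 1 = k)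
    (hY' : finrank F Y' + 1 = k) (hU : U ∈ star k Y) (hW : W ∈ star k Y) (hU' : U ∈ star k Y')
    (hW' : W ∈ star k Y') : Y = Y' := by
  rw [mem_star] at hU hW hU' hW'
  have h1 := adj_of_le hU.1 hW.1 hUW hU.2 hW.2 hY
  have h2 : Y = U ⊓ W := Submodule.eq_of_le_of_finrank_eq (le_inf hU.2 hW.2) (by omega)
  have h3 : Y' = U ⊓ W := Submodule.eq_of_le_of_finrank_eq (le_inf hU'.2 hW'.2) (by omega)
  rw [h2, h3]

theorem flat_two {Y Y' U W : Submodule F V} (hUW : U ≠ W) (hY : finrank F Y = k + 1)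
    (hY' : finrank F Y' = k + 1) (hU : U ∈ flat k Y) (hW : W ∈ flat k Y) (hU' : U ∈ flat k Y')
    (hW' : W ∈ flat k Y') : Y = Y' := by
  rw [mem_flat] at hU hW hU' hW'
  have h1 := lt_sup hU.1 hW.1 hUW
  have h2 : U ⊔ W = Y := Submodule.eq_of_le_of_finrank_le (sup_le hU.2 hW.2) (by omega)
  have h3 : U ⊔ W = Y' := Submodule.eq_of_le_of_finrank_le (sup_le hU'.2 hW'.2) (by omega)
  rw [← h2, h3]

/-- base configuration -/
theorem exists_base (hk : 2 ≤ k) (hkn : k + 2 ≤ finrank F V) :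
    ∃ Y U W X A : Submodule F V, finrank F Y + 1 = k ∧ finrank F U = k ∧ finrank F W = k ∧
      finrank F X = k + 1 ∧ finrank F A = k ∧ U ≠ W ∧ Y ≤ U ∧ Y ≤ W ∧ U ≤ X ∧ W ≤ X ∧
      finrank F (U ⊓ W : Submodule F V) + 1 = k ∧
      finrank F (A ⊓ U : Submodule F V) + 1 = k ∧
      finrank F (A ⊓ W : Submodule F V) + 2 = k := by
  obtain ⟨Y, -, -, hY⟩ := exists_between (F := F) (A := (⊥ : Submodule F V))
    (X := (⊤ : Submodule F V)) (m := k - 1) bot_le (by rw [finrank_bot]; omega)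
    (by rw [finrank_top]; omega)
  obtain ⟨X, hYX, -, hX⟩ := exists_between (F := F) (A := Y)
    (X := (⊤ : Submodule F V)) (m := k + 1) le_top (by omega)
    (by rw [finrank_top]; omega)
  obtain ⟨U, W, hU, hW, hUW, hYU, hYW, hUX, hWX⟩ := exists_two (k := k) (by omega) hX hYX
  have hadj := adj_of_le hU hW hUW hYU hYW (by omega)
  obtain ⟨A, hA, hAU, hAW⟩ := exists_sep hk hkn hU hW hadj
  exact ⟨Y, U, W, X, A, by omega, hU, hW, hX, hA, hUW, hYU, hYW, hUX, hWX, hadj, hAU, hAW⟩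

/-- non-adjacent pairs -/
theorem far_eq (_hk : 2 ≤ k) (_hkn : k + 2 ≤ finrank F V) (hk' : k = 2 ∨ k + 2 = finrank F V)
    {U W : Submodule F V} (hU : finrank F U = k) (hW : finrank F W = k) (hUW : U ≠ W)
    (hn : ¬ finrank F (U ⊓ W : Submodule F V) + 1 = k) :
    finrank F (U ⊓ W : Submodule F V) + 2 = k := by
  have h1 := inf_lt hU hW hUW
  have h2 := Submodule.finrank_sup_add_finrank_inf_eq U W
  have h3 := Submodule.finrank_le (U ⊔ W)
  omega

theorem stars_spg (hk : 2 ≤ k) (hkn : k + 2 ≤ finrank F V) (hk' : k = 2 ∨ k + 2 = finrank F V) :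
    ∃ α s t μ, IsSPG (Gr F V k) (stars F V k) α s t μ := by
  have hk1 : 1 ≤ k := by omega
  have haut := isAut_of (k := k) (stars_act (F := F) (V := V) (k := k) hk1)
  obtain ⟨Y, U, W, X, A, hY, hU, hW, hX, hA, hUW, hYU, hYW, hUX, hWX, hadj, hAU, hAW⟩ :=
    exists_base (F := F) (V := V) hk hkn
  have hWU : ∃ w ∈ W, w ∉ U := by
    apply SetLike.not_le_iff_exists.mp
    intro h
    exact hUW (Submodule.eq_of_le_of_finrank_eq h (by omega)).symm
  have hUW' : ∃ w ∈ U, w ∉ W := by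
    apply SetLike.not_le_iff_exists.mp
    intro h
    exact hUW (Submodule.eq_of_le_of_finrank_eq h (by omega))
  have hfix : ∀ T Z : Submodule F V, finrank F T = k → finrank F Z + 1 = k → T ∉ star k Z →
      (∃ b ∈ star k Z, Coll (stars F V k) T b) →
      finrank F (T ⊓ Z : Submodule F V) + 2 = k := by
    rintro T Z hT hZ hTZ ⟨b, hb, hTb⟩
    rw [mem_star] at hTZ hb
    have h1 := (coll_stars hk1 hT hb.1).mp hTb
    have h2 : ¬ Z ≤ T := fun h => hTZ ⟨hT, h⟩
    have h3 : finrank F (T ⊓ Z : Submodule F V) < finrank F Z := by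
      apply Submodule.finrank_lt_finrank_of_lt
      refine lt_of_le_of_ne inf_le_right ?_
      intro h
      apply h2
      rw [← h]
      exact inf_le_left
    have h4 := Submodule.finrank_sup_add_finrank_inf_eq (T ⊓ b) Z
    have h5 : finrank F (T ⊓ b ⊔ Z : Submodule F V) ≤ k := by
      rw [← hb.1]
      exact Submodule.finrank_mono (sup_le inf_le_right hb.2)
    have h6 : finrank F (T ⊓ b ⊓ Z : Submodule F V) ≤ finrank F (T ⊓ Z : Submodule F V) :=
      Submodule.finrank_mono (inf_le_inf_right _ inf_le_left)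
    omega
  apply spg_of_trans
  · intro l hl
    obtain ⟨Z, hZ, rfl⟩ := (mem_stars hk1).mp hl
    intro T hT
    exact mem_Gr.mpr (mem_star.mp hT).1
  · intro l hl m hm a b hab hal hbl ham hbm
    obtain ⟨Z, hZ, rfl⟩ := (mem_stars hk1).mp hl
    obtain ⟨Z', hZ', rfl⟩ := (mem_stars hk1).mp hm
    rw [star_two hab hZ hZ' hal hbl ham hbm]
  · intro a ha b hb
    rw [mem_Gr] at ha hb
    obtain ⟨g, -, hg⟩ := trans_one (U := a) (U' := b) (by omega)
    exact ⟨act g, haut g, hg⟩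
  · intro l hl m hm
    obtain ⟨Z, hZ, rfl⟩ := (mem_stars hk1).mp hl
    obtain ⟨Z', hZ', rfl⟩ := (mem_stars hk1).mp hm
    obtain ⟨g, -, hg⟩ := trans_one (U := Z) (U' := Z') (by omega)
    exact ⟨act g, haut g, by rw [map_act, image_star, hg]⟩
  · intro a ha l hl hal hex a' ha' l' hl' hal' hex'
    obtain ⟨Z, hZ, rfl⟩ := (mem_stars hk1).mp hl
    obtain ⟨Z', hZ', rfl⟩ := (mem_stars hk1).mp hl'
    rw [mem_Gr] at ha ha'
    have h1 := hfix a Z ha hZ hal hex
    have h2 := hfix a' Z' ha' hZ' hal' hex'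
    obtain ⟨g, -, hg, hg'⟩ := trans_pair (U := a) (W := Z) (U' := a') (W' := Z')
      (by omega) (by omega) (by omega)
    exact ⟨act g, haut g, hg, by rw [map_act, image_star, hg']⟩
  · intro a ha b hb hab hn a' ha' b' hb' hab' hn'
    rw [mem_Gr] at ha hb ha' hb'
    rw [coll_stars hk1 ha hb] at hn
    rw [coll_stars hk1 ha' hb'] at hn'
    have h1 := far_eq hk hkn hk' ha hb hab hn
    have h2 := far_eq hk hkn hk' ha' hb' hab' hn'
    obtain ⟨g, -, hg, hg'⟩ := trans_pair (U := a) (W := b) (U' := a') (W' := b')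
      (by omega) (by omega) (by omega)
    exact ⟨act g, haut g, hg, hg'⟩
  · refine ⟨star k Y, (mem_stars hk1).mpr ⟨Y, hY, rfl⟩, ?_⟩
    exact Finset.one_lt_card.mpr ⟨U, mem_star.mpr ⟨hU, hYU⟩, W, mem_star.mpr ⟨hW, hYW⟩, hUW⟩
  · refine ⟨U, mem_Gr.mpr hU, ?_⟩
    have h1 : star k (U ⊓ W) ≠ star k (A ⊓ U) := by
      intro h
      have h2 : W ∈ star k (A ⊓ U) := by
        rw [← h]
        exact mem_star.mpr ⟨hW, inf_le_right⟩
      have h3 : A ⊓ U ≤ A ⊓ W := le_inf inf_le_left (mem_star.mp h2).2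
      have h4 := Submodule.finrank_mono h3
      omega
    exact Finset.one_lt_card.mpr ⟨_, mem_filter.mpr
      ⟨(mem_stars hk1).mpr ⟨_, hadj, rfl⟩, mem_star.mpr ⟨hU, inf_le_left⟩⟩, _, mem_filter.mpr
      ⟨(mem_stars hk1).mpr ⟨_, hAU, rfl⟩, mem_star.mpr ⟨hU, inf_le_right⟩⟩, h1⟩
  · refine ⟨W, mem_Gr.mpr hW, star k (A ⊓ U), (mem_stars hk1).mpr ⟨_, hAU, rfl⟩, ?_, U,
      mem_star.mpr ⟨hU, inf_le_right⟩, ?_⟩
    · intro h2
      have h3 : A ⊓ U ≤ A ⊓ W := le_inf inf_le_left (mem_star.mp h2).2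
      have h4 := Submodule.finrank_mono h3
      omega
    · rw [coll_stars hk1 hW hU, inf_comm]
      exact hadj
  · refine ⟨A, mem_Gr.mpr hA, W, mem_Gr.mpr hW, ?_, ?_, U, mem_Gr.mpr hU, ?_, ?_⟩
    · rintro rfl
      rw [inf_idem] at hAW
      omega
    · rw [coll_stars hk1 hA hW]
      omega
    · exact (coll_stars hk1 hA hU).mpr hAU
    · rw [coll_stars hk1 hW hU, inf_comm]
      exact hadj

theorem flats_spg (hk : 2 ≤ k) (hkn : k + 2 ≤ finrank F V) (hk' : k = 2 ∨ k + 2 = finrank F V) :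
    ∃ α s t μ, IsSPG (Gr F V k) (flats F V k) α s t μ := by
  have haut := isAut_of (k := k) (flats_act (F := F) (V := V) (k := k))
  obtain ⟨Y, U, W, X, A, hY, hU, hW, hX, hA, hUW, hYU, hYW, hUX, hWX, hadj, hAU, hAW⟩ :=
    exists_base (F := F) (V := V) hk hkn
  have hsup : finrank F (U ⊔ W : Submodule F V) = k + 1 := by
    have := Submodule.finrank_sup_add_finrank_inf_eq U W
    omega
  have hsup' : finrank F (A ⊔ U : Submodule F V) = k + 1 := by
    have := Submodule.finrank_sup_add_finrank_inf_eq A U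
    omega
  have hWAU : ¬ W ≤ A ⊔ U := by
    intro h
    have h1 := Submodule.finrank_mono (sup_le (le_sup_left (a := A) (b := U)) h)
    have h2 := Submodule.finrank_sup_add_finrank_inf_eq A W
    omega
  have hfix : ∀ T Z : Submodule F V, finrank F T = k → finrank F Z = k + 1 → T ∉ flat k Z →
      (∃ b ∈ flat k Z, Coll (flats F V k) T b) →
      finrank F (T ⊓ Z : Submodule F V) + 1 = k := by
    rintro T Z hT hZ hTZ ⟨b, hb, hTb⟩
    rw [mem_flat] at hTZ hb
    have h1 := (coll_flats hT hb.1).mp hTb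
    have h2 : ¬ T ≤ Z := fun h => hTZ ⟨hT, h⟩
    have h3 : finrank F (T ⊓ Z : Submodule F V) < finrank F T := by
      apply Submodule.finrank_lt_finrank_of_lt
      refine lt_of_le_of_ne inf_le_left ?_
      intro h
      apply h2
      rw [← h]
      exact inf_le_right
    have h6 : finrank F (T ⊓ b : Submodule F V) ≤ finrank F (T ⊓ Z : Submodule F V) :=
      Submodule.finrank_mono (inf_le_inf_left _ hb.2)
    omega
  apply spg_of_trans
  · intro l hl
    obtain ⟨Z, hZ, rfl⟩ := mem_flats.mp hl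
    intro T hT
    exact mem_Gr.mpr (mem_flat.mp hT).1
  · intro l hl m hm a b hab hal hbl ham hbm
    obtain ⟨Z, hZ, rfl⟩ := mem_flats.mp hl
    obtain ⟨Z', hZ', rfl⟩ := mem_flats.mp hm
    rw [flat_two hab hZ hZ' hal hbl ham hbm]
  · intro a ha b hb
    rw [mem_Gr] at ha hb
    obtain ⟨g, -, hg⟩ := trans_one (U := a) (U' := b) (by omega)
    exact ⟨act g, haut g, hg⟩
  · intro l hl m hm
    obtain ⟨Z, hZ, rfl⟩ := mem_flats.mp hl
    obtain ⟨Z', hZ', rfl⟩ := mem_flats.mp hm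
    obtain ⟨g, -, hg⟩ := trans_one (U := Z) (U' := Z') (by omega)
    exact ⟨act g, haut g, by rw [map_act, image_flat, hg]⟩
  · intro a ha l hl hal hex a' ha' l' hl' hal' hex'
    obtain ⟨Z, hZ, rfl⟩ := mem_flats.mp hl
    obtain ⟨Z', hZ', rfl⟩ := mem_flats.mp hl'
    rw [mem_Gr] at ha ha'
    have h1 := hfix a Z ha hZ hal hex
    have h2 := hfix a' Z' ha' hZ' hal' hex'
    obtain ⟨g, -, hg, hg'⟩ := trans_pair (U := a) (W := Z) (U' := a') (W' := Z')
      (by omega) (by omega) (by omega)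
    exact ⟨act g, haut g, hg, by rw [map_act, image_flat, hg']⟩
  · intro a ha b hb hab hn a' ha' b' hb' hab' hn'
    rw [mem_Gr] at ha hb ha' hb'
    rw [coll_flats ha hb] at hn
    rw [coll_flats ha' hb'] at hn'
    have h1 := far_eq hk hkn hk' ha hb hab hn
    have h2 := far_eq hk hkn hk' ha' hb' hab' hn'
    obtain ⟨g, -, hg, hg'⟩ := trans_pair (U := a) (W := b) (U' := a') (W' := b')
      (by omega) (by omega) (by omega)
    exact ⟨act g, haut g, hg, hg'⟩
  · refine ⟨flat k X, mem_flats.mpr ⟨X, hX, rfl⟩, ?_⟩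
    exact Finset.one_lt_card.mpr ⟨U, mem_flat.mpr ⟨hU, hUX⟩, W, mem_flat.mpr ⟨hW, hWX⟩, hUW⟩
  · refine ⟨U, mem_Gr.mpr hU, ?_⟩
    have h1 : flat k (U ⊔ W) ≠ flat k (A ⊔ U) := by
      intro h
      have h2 : W ∈ flat k (A ⊔ U) := by
        rw [← h]
        exact mem_flat.mpr ⟨hW, le_sup_right⟩
      exact hWAU (mem_flat.mp h2).2
    exact Finset.one_lt_card.mpr ⟨_, mem_filter.mpr
      ⟨mem_flats.mpr ⟨_, hsup, rfl⟩, mem_flat.mpr ⟨hU, le_sup_left⟩⟩, _, mem_filter.mpr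
      ⟨mem_flats.mpr ⟨_, hsup', rfl⟩, mem_flat.mpr ⟨hU, le_sup_right⟩⟩, h1⟩
  · refine ⟨W, mem_Gr.mpr hW, flat k (A ⊔ U), mem_flats.mpr ⟨_, hsup', rfl⟩, ?_, U,
      mem_flat.mpr ⟨hU, le_sup_right⟩, ?_⟩
    · intro h2
      exact hWAU (mem_flat.mp h2).2
    · rw [coll_flats hW hU, inf_comm]
      exact hadj
  · refine ⟨A, mem_Gr.mpr hA, W, mem_Gr.mpr hW, ?_, ?_, U, mem_Gr.mpr hU, ?_, ?_⟩
    · rintro rfl
      rw [inf_idem] at hAW
      omega
    · rw [coll_flats hA hW]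
      omega
    · exact (coll_flats hA hU).mpr hAU
    · rw [coll_flats hW hU, inf_comm]
      exact hadj

theorem stars_inv (hk : 1 ≤ k) : SLInvariant (stars F V k) := by
  intro g _ l hl
  rw [← map_act]
  exact stars_act hk g l hl

theorem flats_inv : SLInvariant (flats F V k) := by
  intro g _ l hl
  rw [← map_act]
  exact flats_act g l hl

theorem stars_nl (hk : 2 ≤ k) (hkn : k + 2 ≤ finrank F V) :
    NonLinear (Gr F V k) (stars F V k) := by
  obtain ⟨Y, U, W, X, A, hY, hU, hW, hX, hA, hUW, hYU, hYW, hUX, hWX, hadj, hAU, hAW⟩ :=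
    exists_base (F := F) (V := V) hk hkn
  refine ⟨A, mem_Gr.mpr hA, W, mem_Gr.mpr hW, ?_, ?_⟩
  · rintro rfl
    rw [inf_idem] at hAW
    omega
  · rw [coll_stars (by omega) hA hW]
    omega

theorem flats_nl (hk : 2 ≤ k) (hkn : k + 2 ≤ finrank F V) :
    NonLinear (Gr F V k) (flats F V k) := by
  obtain ⟨Y, U, W, X, A, hY, hU, hW, hX, hA, hUW, hYU, hYW, hUX, hWX, hadj, hAU, hAW⟩ :=
    exists_base (F := F) (V := V) hk hkn
  refine ⟨A, mem_Gr.mpr hA, W, mem_Gr.mpr hW, ?_, ?_⟩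
  · rintro rfl
    rw [inf_idem] at hAW
    omega
  · rw [coll_flats hA hW]
    omega

/-- the special linear group is transitive on the flags (point, line) of `B` -/
def SLFlagTransitive (B : Finset (Finset (Submodule F V))) : Prop :=
  ∀ l ∈ B, ∀ U ∈ l, ∀ m ∈ B, ∀ W ∈ m, ∃ g : V ≃ₗ[F] V, LinearEquiv.det g = 1 ∧
    U.map (g : V →ₗ[F] V) = W ∧ l.image (fun T => T.map (g : V →ₗ[F] V)) = m

theorem stars_flag (hk : 1 ≤ k) : SLFlagTransitive (stars F V k) := by
  intro l hl U hU m hm W hW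
  obtain ⟨Y, hY, rfl⟩ := (mem_stars hk).mp hl
  obtain ⟨Z, hZ, rfl⟩ := (mem_stars hk).mp hm
  rw [mem_star] at hU hW
  have h1 : U ⊓ Y = Y := inf_eq_right.mpr hU.2
  have h2 : W ⊓ Z = Z := inf_eq_right.mpr hW.2
  obtain ⟨g, hg, hgU, hgY⟩ := trans_pair (U := U) (W := Y) (U' := W) (W' := Z)
    (by omega) (by omega) (by rw [h1, h2]; omega)
  exact ⟨g, hg, hgU, by rw [image_star, hgY]⟩

theorem flats_flag : SLFlagTransitive (flats F V k) := by
  intro l hl U hU m hm W hW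
  obtain ⟨Y, hY, rfl⟩ := mem_flats.mp hl
  obtain ⟨Z, hZ, rfl⟩ := mem_flats.mp hm
  rw [mem_flat] at hU hW
  have h1 : U ⊓ Y = U := inf_eq_left.mpr hU.2
  have h2 : W ⊓ Z = W := inf_eq_left.mpr hW.2
  obtain ⟨g, hg, hgU, hgY⟩ := trans_pair (U := U) (W := Y) (U' := W) (W' := Z)
    (by omega) (by omega) (by rw [h1, h2]; omega)
  exact ⟨g, hg, hgU, by rw [image_flat, hgY]⟩

end Pool.Agent.Helper29.FT2
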