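import Pool.Agent.Helper29.FT2.Lines

/-!
# Any two elements of a closed set of subspaces are adjacent (MP_cc38df_co)
-/

open Module Submodule

set_option linter.unusedSectionVars false

namespace Pool.Agent.Helper29.FT2

variable {F V : Type*} [Field F] [AddCommGroup V] [Module F V] [FiniteDimensional F V]

variable {L : Set (Submodule F V)} {k : ℕ}

theorem lt_sup {U W : Submodule F V} (hU : finrank F U = k) (hW : finrank F W = k)
    (hUW : U ≠ W) : k + 1 ≤ finrank F (U ⊔ W : Submodule F V) := by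
  by_contra h
  push Not at h
  have h1 : U = U ⊔ W := Submodule.eq_of_le_of_finrank_le le_sup_left (by omega)
  have h2 : W ≤ U := by
    rw [h1]
    exact le_sup_right
  exact hUW (Submodule.eq_of_le_of_finrank_eq h2 (by omega)).symm

theorem adj_caseI (hk2 : 2 ≤ k) (hL : Cl L) {V₀ : Submodule F V}
    (hdim : k + 1 ≤ finrank F V₀) (hV₀ : ∀ R : Submodule F V, R ∈ L ↔ R ≤ V₀ ∧ finrank F R = k)
    (hne : ∃ R : Submodule F V, finrank F R = k ∧ R ∉ L) : finrank F V₀ = k + 1 := by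
  by_contra hcon
  have hdim2 : k + 2 ≤ finrank F V₀ := by omega
  obtain ⟨R, hRk, hRL⟩ := hne
  have hRV : ¬ R ≤ V₀ := fun h => hRL ((hV₀ R).mpr ⟨h, hRk⟩)
  obtain ⟨v, -, hv⟩ := SetLike.not_le_iff_exists.mp hRV
  obtain ⟨X, -, hXV, hX⟩ := exists_between (F := F) (A := (⊥ : Submodule F V)) (X := V₀)
    (m := k + 1) bot_le (by rw [finrank_bot]; omega) hdim
  obtain ⟨x, hxV, hxX⟩ := exists_notMem (X := V₀) (Y := X) (by omega)
  have hxv : x ∉ X ⊔ span F {v} := by
    intro h
    obtain ⟨a, ha, b, hb, hab⟩ := mem_sup.mp h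
    obtain ⟨c, rfl⟩ := mem_span_singleton.mp hb
    by_cases hc : c = 0
    · rw [hc, zero_smul, add_zero] at hab
      exact hxX (hab ▸ ha)
    · apply hv
      have h1 : c • v = x - a := by
        rw [← hab]
        abel
      rw [← V₀.smul_mem_iff hc, h1]
      exact V₀.sub_mem hxV (hXV ha)
  obtain ⟨f, hfx, hf⟩ := exists_form _ hxv
  have hfv : f v = 0 := hf _ (mem_sup_span v)
  -- two elements in X
  obtain ⟨U, -, hUX, hU⟩ := exists_between (F := F) (A := (⊥ : Submodule F V)) (X := X)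
    (m := k) bot_le (by rw [finrank_bot]; omega) (by omega)
  obtain ⟨y, hyX, hyU⟩ := exists_notMem (X := X) (Y := U) (by omega)
  obtain ⟨W, hyW, hWX, hW⟩ := exists_between (F := F) (A := span F {y}) (X := X)
    (m := k) (by rw [span_singleton_le_iff_mem]; exact hyX)
    (by have := finrank_span_one (F := F) y; omega) (by omega)
  have hUW : U ≠ W := by
    rintro rfl
    exact hyU (hyW (mem_span_singleton_self y))
  obtain ⟨T, hxT, hTV, hT⟩ := exists_between (F := F) (A := span F {x}) (X := V₀)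
    (m := k) (by rw [span_singleton_le_iff_mem]; exact hxV)
    (by have := finrank_span_one (F := F) x; omega) (by omega)
  have hUL := (hV₀ U).mpr ⟨hUX.trans hXV, hU⟩
  have hWL := (hV₀ W).mpr ⟨hWX.trans hXV, hW⟩
  have hTL := (hV₀ T).mpr ⟨hTV, hT⟩
  have h1 := hL f v hfv U hUL W hWL hUW
    (tv_fix_of_ker hfv (fun z hz => hf z (mem_sup_left' (hUX hz))))
    (tv_fix_of_ker hfv (fun z hz => hf z (mem_sup_left' (hWX hz)))) T hTL
  have h2 := ((hV₀ _).mp h1).1
  have h3 : tv f v hfv x ∈ V₀ :=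
    h2 (Submodule.mem_map_of_mem (hxT (mem_span_singleton_self x)))
  rw [tv_apply, hfx, one_smul] at h3
  apply hv
  have := V₀.sub_mem h3 hxV
  rwa [add_sub_cancel_left] at this

theorem adj_caseII (hL : Cl L) (hk : ∀ U ∈ L, finrank F U = k)
    (h3 : ∀ U ∈ L, ∀ W ∈ L, U ≠ W → ∃ T ∈ L, T ≠ U ∧ T ≠ W) (hn : k + 2 ≤ finrank F V)
    (hcase : ∀ U ∈ L, ∀ W ∈ L, U ≠ W → ∀ T ∈ L, U ⊓ W ≤ T) {U W : Submodule F V} (hU : U ∈ L)
    (hW : W ∈ L) (hUW : U ≠ W) : finrank F (U ⊓ W : Submodule F V) + 1 = k := by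
  obtain ⟨T, hT, hTU, hTW⟩ := h3 U hU W hW hUW
  have hlt : finrank F (U ⊓ W : Submodule F V) < k := by
    by_contra h
    push Not at h
    have h1 := lt_sup (hk U hU) (hk W hW) hUW
    have h2 := Submodule.finrank_sup_add_finrank_inf_eq U W
    rw [hk U hU, hk W hW] at h2
    omega
  by_contra hcon
  have hle : finrank F (U ⊓ W : Submodule F V) + 2 ≤ k := by omega
  -- a transvection that fixes `U` and `W` fixes `T`
  have key : ∀ (f : Dual F V) (v : V) (h : f v = 0), U.map (tv f v h : V →ₗ[F] V) = U →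
      W.map (tv f v h : V →ₗ[F] V) = W → T.map (tv f v h : V →ₗ[F] V) = T := by
    intro f v h h1 h2
    by_contra hne
    have hT' := hL f v h U hU W hW hUW h1 h2 T hT
    have h4 : T ⊓ T.map (tv f v h : V →ₗ[F] V) ≤ U ⊓ W :=
      le_inf (hcase _ hT _ hT' (Ne.symm hne) U hU) (hcase _ hT _ hT' (Ne.symm hne) W hW)
    have h5 : T ⊓ LinearMap.ker f ≤ T ⊓ T.map (tv f v h : V →ₗ[F] V) := by
      intro x hx
      rw [mem_inf] at hx ⊢
      refine ⟨hx.1, x, hx.1, ?_⟩
      show tv f v h x = x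
      rw [tv_apply, LinearMap.mem_ker.mp hx.2, zero_smul, add_zero]
    have h6 := Submodule.finrank_mono (h5.trans h4)
    have h7 : k ≤ finrank F (T ⊓ LinearMap.ker f : Submodule F V) + 1 := by
      by_cases hx : ∃ x ∈ T, f x ≠ 0
      · obtain ⟨x, hx, hfx⟩ := hx
        rw [finrank_inf_ker hx hfx, hk T hT]
      · push Not at hx
        have : T ⊓ LinearMap.ker f = T := inf_eq_left.mpr
          (fun x hxT => LinearMap.mem_ker.mpr (hx x hxT))
        rw [this, hk T hT]
        omega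
    omega
  -- `T` is contained in `U ⊔ W`
  have hTle : T ≤ U ⊔ W := by
    by_contra hnot
    obtain ⟨x, hxT, hx⟩ := SetLike.not_le_iff_exists.mp hnot
    obtain ⟨f, hfx, hf⟩ := exists_form _ hx
    have hker : k + 1 ≤ finrank F (LinearMap.ker f) := by
      have h1 := finrank_inf_ker (X := (⊤ : Submodule F V)) (f := f) (x := x) mem_top
        (by rw [hfx]; exact one_ne_zero)
      rw [top_inf_eq, finrank_top] at h1
      omega
    obtain ⟨v, hvf, hvT⟩ := exists_notMem (X := LinearMap.ker f) (Y := T)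
      (by rw [hk T hT]; omega)
    have hfv : f v = 0 := LinearMap.mem_ker.mp hvf
    refine tv_move hfv hxT (by rw [hfx]; exact one_ne_zero) hvT (key f v hfv ?_ ?_)
    · exact tv_fix_of_ker hfv (fun z hz => hf z (mem_sup_left' hz))
    · exact tv_fix_of_ker hfv (fun z hz => hf z (le_sup_right (a := U) hz))
  have hUW_T : U ⊓ W ≤ T := hcase U hU W hW hUW T hT
  have hTU' : T ⊓ U ≤ U ⊓ W := le_inf inf_le_right (hcase T hT U hU hTU W hW)
  have hTW' : T ⊓ W = U ⊓ W := le_antisymm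
    (le_inf (hcase T hT W hW hTW U hU) inf_le_right)
    (le_inf hUW_T inf_le_right)
  obtain ⟨v, hvU, hvI⟩ := exists_notMem (X := U) (Y := U ⊓ W) (by rw [hk U hU]; omega)
  have hvT : v ∉ T := fun h => hvI (hTU' (mem_inf.mpr ⟨h, hvU⟩))
  obtain ⟨u, huU, hu⟩ := exists_notMem (X := U) (Y := U ⊓ W ⊔ span F {v})
    (by
      have := finrank_sup_le (U ⊓ W) v
      rw [hk U hU]
      omega)
  have hu2 : u ∉ W ⊔ span F {v} := by
    intro h
    obtain ⟨a, ha, b, hb, hab⟩ := mem_sup.mp h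
    obtain ⟨c, rfl⟩ := mem_span_singleton.mp hb
    apply hu
    have haU : a ∈ U := by
      have : a = u - c • v := by
        rw [← hab]
        abel
      rw [this]
      exact U.sub_mem huU (U.smul_mem c hvU)
    rw [← hab]
    exact add_mem (mem_sup_left' (mem_inf.mpr ⟨haU, ha⟩))
      (Submodule.smul_mem _ _ (mem_sup_span v))
  obtain ⟨f, hfu, hf⟩ := exists_form _ hu2
  have hfv : f v = 0 := hf _ (mem_sup_span v)
  have hfW : ∀ x ∈ W, f x = 0 := fun x hx => hf x (mem_sup_left' hx)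
  have hTWsup : T ⊔ W = U ⊔ W := by
    apply Submodule.eq_of_le_of_finrank_eq
    · exact sup_le hTle le_sup_right
    · have h1 := Submodule.finrank_sup_add_finrank_inf_eq U W
      have h2 := Submodule.finrank_sup_add_finrank_inf_eq T W
      rw [hk T hT, hk W hW, hTW'] at h2
      rw [hk U hU, hk W hW] at h1
      omega
  obtain ⟨x, hxT, hfx⟩ : ∃ x ∈ T, f x ≠ 0 := by
    have h1 : u ∈ T ⊔ W := by
      rw [hTWsup]
      exact mem_sup_left' huU
    obtain ⟨a, ha, b, hb, hab⟩ := mem_sup.mp h1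
    refine ⟨a, ha, ?_⟩
    have : f a = 1 := by
      rw [← hfu, ← hab, map_add, hfW b hb, add_zero]
    rw [this]
    exact one_ne_zero
  exact tv_move hfv hxT hfx hvT
    (key f v hfv (tv_fix_of_mem hfv hvU) (tv_fix_of_ker hfv hfW))

/-- any two elements of a closed set with at least three elements, which is not the set of all
subspaces, meet in a hyperplane of each of them -/
theorem adj (hk2 : 2 ≤ k) (hL : Cl L) (hk : ∀ U ∈ L, finrank F U = k)
    (h3 : ∀ U ∈ L, ∀ W ∈ L, U ≠ W → ∃ T ∈ L, T ≠ U ∧ T ≠ W)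
    (hne : ∃ R : Submodule F V, finrank F R = k ∧ R ∉ L) (hn : k + 2 ≤ finrank F V)
    {U W : Submodule F V} (hU : U ∈ L) (hW : W ∈ L) (hUW : U ≠ W) :
    finrank F (U ⊓ W : Submodule F V) + 1 = k := by
  by_cases hcase : ∀ U ∈ L, ∀ W ∈ L, U ≠ W → ∀ T ∈ L, U ⊓ W ≤ T
  · exact adj_caseII hL hk h3 hn hcase hU hW hUW
  · push Not at hcase
    obtain ⟨U', hU', W', hW', hUW', T, hT, hnot⟩ := hcase
    obtain ⟨V₀, hdim, hV₀⟩ := caseI hk2 hL hk hU' hW' hUW' hT hnot
    have hV := adj_caseI hk2 hL hdim hV₀ hne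
    have h1 : finrank F (U ⊔ W : Submodule F V) ≤ k + 1 := by
      rw [← hV]
      exact Submodule.finrank_mono (sup_le ((hV₀ U).mp hU).1 ((hV₀ W).mp hW).1)
    have h2 := lt_sup (hk U hU) (hk W hW) hUW
    have h4 := Submodule.finrank_sup_add_finrank_inf_eq U W
    rw [hk U hU, hk W hW] at h4
    omega

end Pool.Agent.Helper29.FT2
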