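import Pool.Agent.Helper29.FT2.Sub

/-!
# Sets of subspaces closed under transvections fixing two of their elements (MP_cc38df_co)
-/

open Module Submodule

set_option linter.unusedSectionVars false

namespace Pool.Agent.Helper29.FT2

variable {F V : Type*} [Field F] [AddCommGroup V] [Module F V] [FiniteDimensional F V]

/-- closed under the transvections that fix two of the elements -/
def Cl (L : Set (Submodule F V)) : Prop :=
  ∀ (f : Dual F V) (v : V) (h : f v = 0), ∀ U ∈ L, ∀ W ∈ L, U ≠ W →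
    U.map (tv f v h : V →ₗ[F] V) = U → W.map (tv f v h : V →ₗ[F] V) = W →
      ∀ T ∈ L, T.map (tv f v h : V →ₗ[F] V) ∈ L

variable {L : Set (Submodule F V)} {k : ℕ}

theorem step1 (hL : Cl L) (hk : ∀ U ∈ L, finrank F U = k) {U W T : Submodule F V} (hU : U ∈ L)
    (hW : W ∈ L) (hUW : U ≠ W) (hT : T ∈ L) {v : V} (hvU : v ∈ U) (hvW : v ∈ W) (hvT : v ∉ T)
    {R : Submodule F V} (hR : R ≤ T ⊔ span F {v}) (hRk : finrank F R = k) (hvR : v ∉ R) :
    R ∈ L := by
  obtain ⟨f, h, rfl⟩ := exists_tv hvT hvR hR (by rw [hRk, hk T hT])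
  exact hL f v h U hU W hW hUW (tv_fix_of_mem h hvU) (tv_fix_of_mem h hvW) T hT

/-- vectors in two different elements -/
def Good (L : Set (Submodule F V)) (v : V) : Prop :=
  ∃ U ∈ L, ∃ W ∈ L, U ≠ W ∧ v ∈ U ∧ v ∈ W

theorem exists_notMem {X Y : Submodule F V} (h : finrank F Y < finrank F X) :
    ∃ x ∈ X, x ∉ Y := by
  by_contra hcon
  push Not at hcon
  have : X ≤ Y := fun x hx => hcon x hx
  exact absurd (Submodule.finrank_mono this) (by omega)

theorem finrank_sup_le (S : Submodule F V) (y : V) :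
    finrank F (S ⊔ span F {y} : Submodule F V) ≤ finrank F S + 1 := by
  by_cases hy : y ∈ S
  · have : S ⊔ span F {y} = S := by
      rw [sup_eq_left, span_singleton_le_iff_mem]
      exact hy
    rw [this]
    omega
  · exact (finrank_sup_span_singleton hy).le

theorem finrank_span_one (y : V) : finrank F (span F {y}) ≤ 1 := by
  have h := finrank_sup_le (F := F) (⊥ : Submodule F V) y
  rw [bot_sup_eq, finrank_bot] at h
  exact h

theorem mem_sup_left' {S T : Submodule F V} {x : V} (h : x ∈ S) : x ∈ S ⊔ T :=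
  le_sup_left (a := S) h

theorem mem_sup_span {S : Submodule F V} (y : V) : y ∈ S ⊔ span F {y} :=
  le_sup_right (a := S) (mem_span_singleton_self y)

/-- all `k`-dimensional subspaces of `T ⊔ ⟨v⟩` -/
theorem step2 (hk2 : 2 ≤ k) (hL : Cl L) (hk : ∀ U ∈ L, finrank F U = k) {v : V}
    (hg : Good L v) {T : Submodule F V} (hT : T ∈ L) (hvT : v ∉ T)
    {R : Submodule F V} (hR : R ≤ T ⊔ span F {v}) (hRk : finrank F R = k) : R ∈ L := by
  obtain ⟨U, hU, W, hW, hUW, hvU, hvW⟩ := hg
  have hs1 : ∀ R' : Submodule F V, R' ≤ T ⊔ span F {v} → finrank F R' = k → v ∉ R' → R' ∈ L :=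
    fun R' h1 h2 h3 => step1 hL hk hU hW hUW hT hvU hvW hvT h1 h2 h3
  by_cases hvR : v ∈ R
  swap
  · exact hs1 R hR hRk hvR
  set X := T ⊔ span F {v} with hX
  have hXk : finrank F X = k + 1 := by
    rw [hX, finrank_sup_span_singleton hvT, hk T hT]
  have hvX : v ∈ X := mem_sup_span v
  obtain ⟨v', hv'X, hv'R⟩ := exists_notMem (X := X) (Y := R) (by omega)
  have hv0 : v ≠ 0 := fun h => hvT (h ▸ T.zero_mem)
  have hvv' : v ∉ span F {v'} := by
    intro h
    obtain ⟨c, hc⟩ := mem_span_singleton.mp h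
    have hc0 : c ≠ 0 := by
      rintro rfl
      rw [zero_smul] at hc
      exact hv0 hc.symm
    apply hv'R
    rw [← hc] at hvR
    exact (R.smul_mem_iff hc0).mp hvR
  -- the third subspace
  have hdiff : v ∉ span F {v' - v} := by
    intro h
    obtain ⟨c, hc⟩ := mem_span_singleton.mp h
    apply hvv'
    have h1 : (1 + c) • v = c • v' := by
      rw [smul_sub] at hc
      rw [add_smul, one_smul, eq_comm, ← sub_eq_iff_eq_add]
      exact hc
    by_cases hc1 : 1 + c = 0
    · have hc2 : c ≠ 0 := by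
        rintro rfl
        simp at hc1
      rw [hc1, zero_smul] at h1
      have h2 := (smul_eq_zero.mp h1.symm).resolve_left hc2
      exact absurd (h2 ▸ R.zero_mem) hv'R
    · have h2 : v = ((1 + c)⁻¹ * c) • v' := by
        rw [mul_smul, ← h1, smul_smul, inv_mul_cancel₀ hc1, one_smul]
      rw [h2]
      exact Submodule.smul_mem _ _ (mem_span_singleton_self v')
  obtain ⟨φ, hφv, hφ⟩ := exists_form _ hdiff
  have hφv' : φ v' = 1 := by
    have := hφ _ (mem_span_singleton_self (v' - v))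
    rw [map_sub, sub_eq_zero] at this
    rw [this, hφv]
  have hT3 : finrank F (X ⊓ LinearMap.ker φ : Submodule F V) = k := by
    have := finrank_inf_ker hvX (f := φ) (by rw [hφv]; exact one_ne_zero)
    omega
  have hvT3 : v ∉ X ⊓ LinearMap.ker φ := by
    intro h
    have := LinearMap.mem_ker.mp (mem_inf.mp h).2
    rw [hφv] at this
    exact one_ne_zero this
  have hv'T3 : v' ∉ X ⊓ LinearMap.ker φ := by
    intro h
    have := LinearMap.mem_ker.mp (mem_inf.mp h).2
    rw [hφv'] at this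
    exact one_ne_zero this
  have hT3L := hs1 _ inf_le_left hT3 hvT3
  -- the first subspace
  obtain ⟨φ₁, hφ₁v, hφ₁⟩ := exists_form _ hvv'
  have hφ₁v' : φ₁ v' = 0 := hφ₁ _ (mem_span_singleton_self v')
  have hT1 : finrank F (X ⊓ LinearMap.ker φ₁ : Submodule F V) = k := by
    have := finrank_inf_ker hvX (f := φ₁) (by rw [hφ₁v]; exact one_ne_zero)
    omega
  have hvT1 : v ∉ X ⊓ LinearMap.ker φ₁ := by
    intro h
    have := LinearMap.mem_ker.mp (mem_inf.mp h).2
    rw [hφ₁v] at this
    exact one_ne_zero this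
  have hT1L := hs1 _ inf_le_left hT1 hvT1
  have hv'T1 : v' ∈ X ⊓ LinearMap.ker φ₁ := mem_inf.mpr ⟨hv'X, LinearMap.mem_ker.mpr hφ₁v'⟩
  -- the second subspace
  obtain ⟨x, hxT1, hx⟩ := exists_notMem (X := X ⊓ LinearMap.ker φ₁) (Y := span F {v'})
    (by have := finrank_span_one (F := F) v'; omega)
  have hx2 : x ∉ span F {v'} ⊔ span F {v} := by
    intro h
    obtain ⟨a, ha, b, hb, hab⟩ := mem_sup.mp h
    obtain ⟨c, rfl⟩ := mem_span_singleton.mp hb
    have h1 := LinearMap.mem_ker.mp (mem_inf.mp hxT1).2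
    rw [← hab, map_add, hφ₁ a ha, map_smul, hφ₁v, smul_eq_mul, mul_one, zero_add] at h1
    rw [h1, zero_smul, add_zero] at hab
    rw [hab] at ha
    exact hx ha
  obtain ⟨χ, hχx, hχ⟩ := exists_form _ hx2
  have hχv : χ v = 0 := hχ _ (mem_sup_span v)
  have hχv' : χ v' = 0 := hχ _ (mem_sup_left' (mem_span_singleton_self v'))
  have h2v : (φ₁ + χ) v = 1 := by
    rw [LinearMap.add_apply, hφ₁v, hχv, add_zero]
  have hT2 : finrank F (X ⊓ LinearMap.ker (φ₁ + χ) : Submodule F V) = k := by
    have := finrank_inf_ker hvX (f := φ₁ + χ) (by rw [h2v]; exact one_ne_zero)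
    omega
  have hvT2 : v ∉ X ⊓ LinearMap.ker (φ₁ + χ) := by
    intro h
    have := LinearMap.mem_ker.mp (mem_inf.mp h).2
    rw [h2v] at this
    exact one_ne_zero this
  have hT2L := hs1 _ inf_le_left hT2 hvT2
  have hv'T2 : v' ∈ X ⊓ LinearMap.ker (φ₁ + χ) := by
    refine mem_inf.mpr ⟨hv'X, LinearMap.mem_ker.mpr ?_⟩
    rw [LinearMap.add_apply, hφ₁v', hχv', add_zero]
  have hne : X ⊓ LinearMap.ker φ₁ ≠ X ⊓ LinearMap.ker (φ₁ + χ) := by
    intro h
    rw [h] at hxT1
    have h1 := LinearMap.mem_ker.mp (mem_inf.mp hxT1).2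
    rw [← h] at hxT1
    have h2 := LinearMap.mem_ker.mp (mem_inf.mp hxT1).2
    rw [LinearMap.add_apply, h2, hχx, zero_add] at h1
    exact one_ne_zero h1
  refine step1 hL hk hT1L hT2L hne hT3L hv'T1 hv'T2 hv'T3 ?_ hRk hv'R
  have h3 : X ⊓ LinearMap.ker φ ⊔ span F {v'} = X := by
    apply Submodule.eq_of_le_of_finrank_eq
    · apply sup_le inf_le_left
      rw [span_singleton_le_iff_mem]
      exact hv'X
    · rw [finrank_sup_span_singleton hv'T3, hT3, hXk]
  rw [h3]
  exact hR

theorem good_of_le (hk2 : 2 ≤ k) {X : Submodule F V} (hX : finrank F X = k + 1)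
    (hXL : ∀ R : Submodule F V, R ≤ X → finrank F R = k → R ∈ L) {x : V} (hx : x ∈ X) :
    Good L x := by
  obtain ⟨y, hyX, hy⟩ := exists_notMem (X := X) (Y := span F {x})
    (by have := finrank_span_one (F := F) x; omega)
  obtain ⟨φ, hφy, hφ⟩ := exists_form _ hy
  have h1 : finrank F (X ⊓ LinearMap.ker φ : Submodule F V) = k := by
    have := finrank_inf_ker hyX (f := φ) (by rw [hφy]; exact one_ne_zero)
    omega
  obtain ⟨T, hT1, hT2, hT3⟩ := exists_between (A := span F {x} ⊔ span F {y}) (X := X) (m := k)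
    (by
      rw [sup_le_iff, span_singleton_le_iff_mem, span_singleton_le_iff_mem]
      exact ⟨hx, hyX⟩)
    (by
      have h2 := finrank_sup_le (F := F) (span F {x}) y
      have h3 := finrank_span_one (F := F) x
      omega) (by omega)
  refine ⟨X ⊓ LinearMap.ker φ, hXL _ inf_le_left h1, T, hXL _ hT2 hT3, ?_, ?_, ?_⟩
  · intro h
    have h2 : y ∈ T := hT1 (mem_sup_span y)
    rw [← h] at h2
    have h3 := LinearMap.mem_ker.mp (mem_inf.mp h2).2
    rw [hφy] at h3
    exact one_ne_zero h3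
  · exact mem_inf.mpr ⟨hx, LinearMap.mem_ker.mpr (hφ _ (mem_span_singleton_self x))⟩
  · exact hT1 (mem_sup_left' (mem_span_singleton_self x))

/-- sum of good vectors -/
theorem good_add (hk2 : 2 ≤ k) (hL : Cl L) (hk : ∀ U ∈ L, finrank F U = k) {v w : V}
    (hv : Good L v) (hw : Good L w) : Good L (v + w) := by
  obtain ⟨U, hU, W, hW, hUW, hvU, hvW⟩ := id hv
  have key : ∀ T ∈ L, v ∈ T → w ∉ T → Good L (v + w) := by
    intro T hT hvT hwT
    apply good_of_le hk2 (X := T ⊔ span F {w})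
    · rw [finrank_sup_span_singleton hwT, hk T hT]
    · intro R h1 h2
      exact step2 hk2 hL hk hw hT hwT h1 h2
    · exact add_mem (mem_sup_left' hvT) (mem_sup_span w)
  by_cases h1 : w ∈ U
  · by_cases h2 : w ∈ W
    · exact ⟨U, hU, W, hW, hUW, U.add_mem hvU h1, W.add_mem hvW h2⟩
    · exact key W hW hvW h2
  · exact key U hU hvU h1

theorem good_smul {v : V} (hv : Good L v) (c : F) : Good L (c • v) := by
  obtain ⟨U, hU, W, hW, hUW, hvU, hvW⟩ := hv
  exact ⟨U, hU, W, hW, hUW, U.smul_mem c hvU, W.smul_mem c hvW⟩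

/-- first case: some intersection of two elements is not contained in a third one -/
theorem caseI (hk2 : 2 ≤ k) (hL : Cl L) (hk : ∀ U ∈ L, finrank F U = k) {U W T : Submodule F V}
    (hU : U ∈ L) (hW : W ∈ L) (hUW : U ≠ W) (hT : T ∈ L) (hUWT : ¬ U ⊓ W ≤ T) :
    ∃ V₀ : Submodule F V, k + 1 ≤ finrank F V₀ ∧
      ∀ R : Submodule F V, R ∈ L ↔ R ≤ V₀ ∧ finrank F R = k := by
  obtain ⟨v, hv, hvT⟩ := SetLike.not_le_iff_exists.mp hUWT
  rw [mem_inf] at hv
  have hgv : Good L v := ⟨U, hU, W, hW, hUW, hv.1, hv.2⟩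
  have hXL : ∀ T ∈ L, ∀ v, Good L v → v ∉ T → ∀ x ∈ T ⊔ span F {v}, Good L x := by
    intro T hT v hgv hvT x hx
    apply good_of_le hk2 (X := T ⊔ span F {v})
    · rw [finrank_sup_span_singleton hvT, hk T hT]
    · intro R h1 h2
      exact step2 hk2 hL hk hgv hT hvT h1 h2
    · exact hx
  let V₀ : Submodule F V :=
    { carrier := {x | Good L x}
      add_mem' := fun ha hb => good_add hk2 hL hk ha hb
      zero_mem' := ⟨U, hU, W, hW, hUW, U.zero_mem, W.zero_mem⟩
      smul_mem' := fun c x hx => good_smul hx c }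
  have hmem : ∀ x, x ∈ V₀ ↔ Good L x := fun x => Iff.rfl
  have hXV : T ⊔ span F {v} ≤ V₀ := fun x hx => hXL T hT v hgv hvT x hx
  have hdim : k + 1 ≤ finrank F V₀ := by
    have h1 := Submodule.finrank_mono hXV
    rw [finrank_sup_span_singleton hvT, hk T hT] at h1
    exact h1
  have hLV : ∀ R ∈ L, R ≤ V₀ := by
    intro R hR x hx
    obtain ⟨w, hw, hwR⟩ := exists_notMem (X := V₀) (Y := R) (by rw [hk R hR]; omega)
    exact hXL R hR w hw hwR x (mem_sup_left' hx)
  refine ⟨V₀, hdim, ?_⟩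
  intro R
  constructor
  · intro hR
    exact ⟨hLV R hR, hk R hR⟩
  · rintro ⟨hRV, hRk⟩
    -- approach R by elements of L
    have key : ∀ m : ℕ, m ≤ k → ∃ T ∈ L, m ≤ finrank F (R ⊓ T : Submodule F V) := by
      intro m
      induction m with
      | zero => exact fun _ => ⟨T, hT, Nat.zero_le _⟩
      | succ m ih =>
        intro hm
        obtain ⟨T', hT', h1⟩ := ih (by omega)
        by_cases h2 : m + 1 ≤ finrank F (R ⊓ T' : Submodule F V)
        · exact ⟨T', hT', h2⟩
        obtain ⟨r, hrR, hr⟩ := exists_notMem (X := R) (Y := R ⊓ T') (by omega)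
        have hrT : r ∉ T' := fun h => hr (mem_inf.mpr ⟨hrR, h⟩)
        have hfin : finrank F (R ⊓ T' ⊔ span F {r} : Submodule F V) = m + 1 := by
          rw [finrank_sup_span_singleton hr]
          omega
        obtain ⟨T'', h3, h4, h5⟩ := exists_between (A := R ⊓ T' ⊔ span F {r})
          (X := T' ⊔ span F {r}) (m := k) (sup_le_sup_right inf_le_right _) (by omega)
          (by rw [finrank_sup_span_singleton hrT, hk T' hT']; omega)
        refine ⟨T'', step2 hk2 hL hk (hRV hrR) hT' hrT h4 h5, ?_⟩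
        rw [← hfin]
        apply Submodule.finrank_mono
        apply le_inf _ h3
        apply sup_le inf_le_left
        rw [span_singleton_le_iff_mem]
        exact hrR
    obtain ⟨T', hT', h1⟩ := key k le_rfl
    have h2 : R ⊓ T' = R := by
      apply Submodule.eq_of_le_of_finrank_le inf_le_left
      omega
    have h3 : R = T' := by
      apply Submodule.eq_of_le_of_finrank_eq
      · rw [← h2]
        exact inf_le_right
      · rw [hRk, hk T' hT']
    rw [h3]
    exact hT'

end Pool.Agent.Helper29.FT2
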