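import Pool.Agent.Helper29.FT2.Unip
import Pool.Agent.Helper29.FT.Excl

/-!
# No semipartial geometries on the `k`-dimensional subspaces, `3 ≤ k ≤ n - 3` (MP_cc38df_co)
-/

open Module Submodule Finset

set_option linter.unusedSectionVars false

namespace Pool.Agent.Helper29.FT2

open Pool.Agent.Helper29.FT

variable {F V : Type*} [Field F] [Finite F] [AddCommGroup V] [Module F V] [FiniteDimensional F V]

theorem finite_sub (F V : Type*) [Field F] [Finite F] [AddCommGroup V] [Module F V]
    [FiniteDimensional F V] : Finite (Submodule F V) := by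
  have : Finite V := Module.finite_of_finite F
  infer_instance

/-- the set of all `k`-dimensional subspaces of `V` -/
noncomputable def Gr (F V : Type*) [Field F] [Finite F] [AddCommGroup V] [Module F V]
    [FiniteDimensional F V] (k : ℕ) : Finset (Submodule F V) :=
  Set.Finite.toFinset (s := {U : Submodule F V | finrank F U = k})
    (@Set.toFinite _ _ (@Subtype.finite _ (finite_sub F V) _))

theorem mem_Gr {k : ℕ} {U : Submodule F V} : U ∈ Gr F V k ↔ finrank F U = k := by
  rw [Gr, Set.Finite.mem_toFinset]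
  rfl

/-- the set of lines is invariant under the special linear group of `V` -/
def SLInvariant [DecidableEq (Submodule F V)] (B : Finset (Finset (Submodule F V))) : Prop :=
  ∀ g : V ≃ₗ[F] V, LinearEquiv.det g = 1 →
    ∀ l ∈ B, l.image (fun U => U.map (g : V →ₗ[F] V)) ∈ B

variable [DecidableEq (Submodule F V)] {B : Finset (Finset (Submodule F V))} {k α s t μ : ℕ}

theorem map_inj (g : V ≃ₗ[F] V) {U W : Submodule F V}
    (h : U.map (g : V →ₗ[F] V) = W.map (g : V →ₗ[F] V)) : U = W :=
  Submodule.map_injective_of_injective (f := (g : V →ₗ[F] V)) g.injective h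

theorem coll_map (hB : SLInvariant B) {g : V ≃ₗ[F] V} (hg : LinearEquiv.det g = 1)
    {U W : Submodule F V} (h : Coll B U W) :
    Coll B (U.map (g : V →ₗ[F] V)) (W.map (g : V →ₗ[F] V)) := by
  obtain ⟨hUW, l, hl, hU, hW⟩ := h
  exact ⟨fun h => hUW (map_inj g h), _, hB g hg l hl, mem_image_of_mem _ hU,
    mem_image_of_mem _ hW⟩

theorem line_cl (hB : SLInvariant B) {P : Finset (Submodule F V)} (hS : IsSPG P B α s t μ)
    {l : Finset (Submodule F V)} (hl : l ∈ B) : Cl (l : Set (Submodule F V)) := by
  intro f v h U hU W hW hUW hfU hfW T hT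
  rw [Finset.mem_coe] at hU hW hT ⊢
  have h1 := hB (tv f v h) (LinearEquiv.transvection.det_eq_one h) l hl
  have h2 : U ∈ l.image (fun U => U.map (tv f v h : V →ₗ[F] V)) := by
    rw [mem_image]
    exact ⟨U, hU, hfU⟩
  have h3 : W ∈ l.image (fun U => U.map (tv f v h : V →ₗ[F] V)) := by
    rw [mem_image]
    exact ⟨W, hW, hfW⟩
  have h4 := hS.two_points _ h1 l hl U W hUW h2 h3 hU hW
  rw [← h4]
  exact mem_image_of_mem _ hT

/-- two `k`-dimensional subspaces meeting in a subspace of dimension `k - 3` -/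
theorem exists_far (hk : 3 ≤ k) (hkn : k + 3 ≤ finrank F V) :
    ∃ U W : Submodule F V, finrank F U = k ∧ finrank F W = k ∧
      finrank F (U ⊓ W : Submodule F V) + 3 = k := by
  obtain ⟨U, -, -, hU⟩ := exists_between (F := F) (A := (⊥ : Submodule F V))
    (X := (⊤ : Submodule F V)) (m := k) bot_le (by rw [finrank_bot]; omega)
    (by rw [finrank_top]; omega)
  obtain ⟨C, hC⟩ := Submodule.exists_isCompl U
  have hCk : finrank F C + k = finrank F V := by
    rw [← hU, add_comm]
    exact Submodule.finrank_add_eq_of_isCompl hC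
  obtain ⟨D, -, hDC, hD⟩ := exists_between (F := F) (A := (⊥ : Submodule F V))
    (X := C) (m := 3) bot_le (by rw [finrank_bot]; omega) (by omega)
  obtain ⟨J, -, hJU, hJ⟩ := exists_between (F := F) (A := (⊥ : Submodule F V))
    (X := U) (m := k - 3) bot_le (by rw [finrank_bot]; omega) (by omega)
  have hUD : U ⊓ D = ⊥ := by
    rw [eq_bot_iff, ← hC.inf_eq_bot]
    exact inf_le_inf_left _ hDC
  have hJD : J ⊓ D = ⊥ := by
    rw [eq_bot_iff, ← hUD]
    exact inf_le_inf_right _ hJU
  refine ⟨U, J ⊔ D, hU, ?_, ?_⟩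
  · have h1 := Submodule.finrank_sup_add_finrank_inf_eq J D
    rw [hJD, finrank_bot] at h1
    omega
  · have h1 : U ⊓ (J ⊔ D) = J := by
      rw [inf_comm, sup_inf_assoc_of_le D hJU, inf_comm D U, hUD, sup_bot_eq]
    rw [h1]
    omega

/-- **Nonexistence.** -/
theorem no_spg (hk : 3 ≤ k) (hkn : k + 3 ≤ finrank F V) (hB : SLInvariant B)
    (hS : IsSPG (Gr F V k) B α s t μ) (hNL : NonLinear (Gr F V k) B) : False := by
  have hdim : ∀ l ∈ B, ∀ U ∈ l, finrank F U = k := fun l hl U hU => mem_Gr.mp
    (hS.lines_sub l hl hU)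
  by_cases hs : s = 1
  · obtain ⟨U, hU, -⟩ := id hNL
    obtain ⟨l, hl, hUl⟩ := hS.exists_line hU
    have h1 : 1 < #l := by
      rw [hS.line_card l hl]
      omega
    obtain ⟨W, hWl, hWU⟩ := exists_mem_ne h1 U
    have hUW : Coll B U W := ⟨hWU.symm, l, hl, hUl, hWl⟩
    obtain ⟨g, h, hg, hh, hgU, hhW, hgh⟩ := exists_block (U := U) (W := W)
      (by rw [hdim l hl U hUl, hdim l hl W hWl])
    have h2 := coll_map hB hg hUW
    have h3 := coll_map hB hh hUW
    rw [hgU, hgh] at h2
    rw [hhW] at h3
    exact no_triangle hS hs hNL hUW h3.symm h2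
  · have hs2 : 2 ≤ s := by
      have := hS.s_pos
      omega
    have hadj : ∀ U W, Coll B U W → finrank F (U ⊓ W : Submodule F V) + 1 = k := by
      rintro U W ⟨hUW, l, hl, hU, hW⟩
      refine adj (L := (l : Set (Submodule F V))) (by omega) (line_cl hB hS hl) (hdim l hl) ?_ ?_
        (by omega) hU hW hUW
      · intro U' _ W' _ _
        have h1 : ∃ T ∈ l, T ∉ ({U', W'} : Finset (Submodule F V)) := by
          by_contra hcon
          push Not at hcon
          have h2 := card_le_card (show l ⊆ {U', W'} from hcon)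
          rw [hS.line_card l hl] at h2
          have h3 := Finset.card_le_two (a := U') (b := W')
          omega
        obtain ⟨T, hT, hT2⟩ := h1
        rw [Finset.mem_insert, Finset.mem_singleton, not_or] at hT2
        exact ⟨T, hT, hT2.1, hT2.2⟩
      · by_contra hcon
        push Not at hcon
        obtain ⟨x, hx, y, hy, hxy, hn⟩ := hNL
        exact hn ⟨hxy, l, hl, hcon x (mem_Gr.mp hx), hcon y (mem_Gr.mp hy)⟩
    obtain ⟨U, W, hU, hW, hUW⟩ := exists_far (F := F) (V := V) hk hkn
    have hne : U ≠ W := by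
      rintro rfl
      rw [inf_idem] at hUW
      omega
    have hnc : ¬ Coll B U W := by
      intro h
      have := hadj U W h
      omega
    obtain ⟨C, hC, hUC, hWC⟩ := hS.exists_common (mem_Gr.mpr hU) (mem_Gr.mpr hW) hne hnc
    have h1 := hadj U C hUC
    have h2 := hadj W C hWC
    have h3 := Submodule.finrank_sup_add_finrank_inf_eq (U ⊓ C) (W ⊓ C)
    have h4 : finrank F (U ⊓ C ⊔ W ⊓ C : Submodule F V) ≤ k := by
      rw [← mem_Gr.mp hC]
      exact Submodule.finrank_mono (sup_le inf_le_right inf_le_right)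
    have h5 : finrank F (U ⊓ C ⊓ (W ⊓ C) : Submodule F V) ≤
        finrank F (U ⊓ W : Submodule F V) :=
      Submodule.finrank_mono (inf_le_inf inf_le_left inf_le_left)
    omega

end Pool.Agent.Helper29.FT2
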