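import Mathlib

/-!
# Subspaces and transvections (MP_cc38df_co)
-/

open Module Submodule

set_option linter.unusedSectionVars false

namespace Pool.Agent.Helper29.FT2

variable {F V : Type*} [Field F] [AddCommGroup V] [Module F V] [FiniteDimensional F V]

/-- a subspace of given dimension between two subspaces -/
theorem exists_between {A X : Submodule F V} {m : ℕ} (hAX : A ≤ X) (h1 : finrank F A ≤ m)
    (h2 : m ≤ finrank F X) : ∃ R : Submodule F V, A ≤ R ∧ R ≤ X ∧ finrank F R = m := by
  induction m with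
  | zero => exact ⟨A, le_rfl, hAX, by omega⟩
  | succ m ih =>
    rcases Nat.lt_or_ge m (finrank F A) with h | h
    · exact ⟨A, le_rfl, hAX, by omega⟩
    obtain ⟨R, hAR, hRX, hR⟩ := ih h (by omega)
    have hne : R < X := lt_of_le_of_ne hRX (by
      rintro rfl
      omega)
    obtain ⟨x, hx, hxR⟩ := SetLike.exists_of_lt hne
    refine ⟨R ⊔ span F {x}, hAR.trans le_sup_left, sup_le hRX ?_, ?_⟩
    · rw [span_singleton_le_iff_mem]
      exact hx
    · rw [finrank_sup_span_singleton hxR, hR]

/-- a functional with prescribed zeros -/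
theorem exists_form (p : Submodule F V) {x : V} (hx : x ∉ p) :
    ∃ f : Dual F V, f x = 1 ∧ ∀ y ∈ p, f y = 0 := by
  obtain ⟨f, hf, hp⟩ := Submodule.exists_le_ker_of_notMem hx
  refine ⟨(f x)⁻¹ • f, ?_, ?_⟩
  · rw [LinearMap.smul_apply, smul_eq_mul, inv_mul_cancel₀ hf]
  · intro y hy
    rw [LinearMap.smul_apply, LinearMap.mem_ker.mp (hp hy), smul_zero]

/-- the intersection with a hyperplane -/
theorem finrank_inf_ker {X : Submodule F V} {f : Dual F V} {x : V} (hx : x ∈ X) (hf : f x ≠ 0) :
    finrank F (X ⊓ LinearMap.ker f : Submodule F V) + 1 = finrank F X := by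
  have h1 : x ∉ X ⊓ LinearMap.ker f := fun h => hf (LinearMap.mem_ker.mp h.2)
  have h2 : X ⊓ LinearMap.ker f ⊔ span F {x} = X := by
    apply le_antisymm
    · apply sup_le inf_le_left
      rw [span_singleton_le_iff_mem]
      exact hx
    · intro y hy
      rw [mem_sup]
      refine ⟨y - (f y / f x) • x, ?_, (f y / f x) • x, ?_, by abel⟩
      · refine mem_inf.mpr ⟨X.sub_mem hy (X.smul_mem _ hx), ?_⟩
        rw [LinearMap.mem_ker, map_sub, map_smul, smul_eq_mul, div_mul_cancel₀ _ hf, sub_self]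
      · exact Submodule.smul_mem _ _ (mem_span_singleton_self x)
  have h3 := finrank_sup_span_singleton h1
  rw [h2] at h3
  exact h3.symm

/-- the map of subspaces induced by a linear equivalence preserves the dimension -/
theorem finrank_map' (g : V ≃ₗ[F] V) (U : Submodule F V) :
    finrank F (U.map (g : V →ₗ[F] V)) = finrank F U :=
  LinearEquiv.finrank_map_eq g U

/-- the transvection `x ↦ x + f x • v` -/
noncomputable abbrev tv (f : Dual F V) (v : V) (h : f v = 0) : V ≃ₗ[F] V :=
  LinearEquiv.transvection h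

theorem tv_apply (f : Dual F V) (v : V) (h : f v = 0) (x : V) : tv f v h x = x + f x • v := rfl

theorem map_eq_of_le {g : V ≃ₗ[F] V} {U W : Submodule F V} (h : ∀ x ∈ U, g x ∈ W)
    (hd : finrank F U = finrank F W) : U.map (g : V →ₗ[F] V) = W := by
  apply Submodule.eq_of_le_of_finrank_eq
  · rintro _ ⟨x, hx, rfl⟩
    exact h x hx
  · rw [finrank_map', hd]

theorem tv_fix_of_mem {f : Dual F V} {v : V} (h : f v = 0) {U : Submodule F V} (hv : v ∈ U) :
    U.map (tv f v h : V →ₗ[F] V) = U := by
  apply map_eq_of_le _ rfl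
  intro x hx
  rw [tv_apply]
  exact U.add_mem hx (U.smul_mem _ hv)

theorem tv_fix_of_ker {f : Dual F V} {v : V} (h : f v = 0) {U : Submodule F V}
    (hU : ∀ x ∈ U, f x = 0) : U.map (tv f v h : V →ₗ[F] V) = U := by
  apply map_eq_of_le _ rfl
  intro x hx
  rw [tv_apply, hU x hx, zero_smul, add_zero]
  exact hx

theorem tv_move {f : Dual F V} {v : V} (h : f v = 0) {U : Submodule F V} {x : V} (hx : x ∈ U)
    (hfx : f x ≠ 0) (hv : v ∉ U) : U.map (tv f v h : V →ₗ[F] V) ≠ U := by
  intro heq
  apply hv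
  have h1 : tv f v h x ∈ U.map (tv f v h : V →ₗ[F] V) := Submodule.mem_map_of_mem hx
  rw [heq, tv_apply] at h1
  have h2 : f x • v ∈ U := by
    have := U.sub_mem h1 hx
    rwa [add_sub_cancel_left] at this
  exact (U.smul_mem_iff hfx).mp h2

/-- if `R` is a complement of `v` in `T ⊔ ⟨v⟩` then `R` is the image of `T` under a transvection
with centre `v` -/
theorem exists_tv {T R : Submodule F V} {v : V} (hvT : v ∉ T) (hvR : v ∉ R)
    (hR : R ≤ T ⊔ span F {v}) (hd : finrank F R = finrank F T) :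
    ∃ (f : Dual F V) (h : f v = 0), T.map (tv f v h : V →ₗ[F] V) = R := by
  obtain ⟨φ, hφ1, hφ⟩ := exists_form R hvR
  obtain ⟨ψ, hψ1, hψ⟩ := exists_form T hvT
  have hf : (ψ - φ) v = 0 := by
    rw [LinearMap.sub_apply, hφ1, hψ1, sub_self]
  have hReq : R = (T ⊔ span F {v}) ⊓ LinearMap.ker φ := by
    apply Submodule.eq_of_le_of_finrank_eq
    · exact le_inf hR (fun x hx => LinearMap.mem_ker.mpr (hφ x hx))
    · have h1 : v ∈ T ⊔ span F {v} := le_sup_right (a := T) (mem_span_singleton_self v)
      have h2 := finrank_inf_ker h1 (f := φ) (by rw [hφ1]; exact one_ne_zero)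
      have h3 := finrank_sup_span_singleton hvT
      omega
  refine ⟨ψ - φ, hf, map_eq_of_le ?_ hd.symm⟩
  intro x hx
  rw [tv_apply, hReq]
  refine mem_inf.mpr ⟨?_, ?_⟩
  · exact add_mem (le_sup_left (a := T) hx)
      (Submodule.smul_mem _ _ (le_sup_right (a := T) (mem_span_singleton_self v)))
  · rw [LinearMap.mem_ker, map_add, map_smul, LinearMap.sub_apply, hψ x hx, hφ1]
    simp

end Pool.Agent.Helper29.FT2
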