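import Pool.Agent.Helper29.FT2.Adj

/-!
# Unipotent maps and pairs of subspaces (MP_cc38df_co)
-/

open Module Submodule

set_option linter.unusedSectionVars false

namespace Pool.Agent.Helper29.FT2

variable {F V : Type*} [Field F] [AddCommGroup V] [Module F V] [FiniteDimensional F V]

/-- the map `x ↦ x + X x` for `X² = 0` -/
noncomputable def uni (X : V →ₗ[F] V) (hX : ∀ x, X (X x) = 0) : V ≃ₗ[F] V :=
  LinearEquiv.ofLinearMap (LinearMap.id + X) (LinearMap.id - X)
    (by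
      ext x
      simp [hX])
    (by
      ext x
      simp [hX])

theorem uni_apply (X : V →ₗ[F] V) (hX : ∀ x, X (X x) = 0) (x : V) : uni X hX x = x + X x := rfl

theorem det_uni [Finite F] (X : V →ₗ[F] V) (hX : ∀ x, X (X x) = 0) :
    LinearEquiv.det (uni X hX) = 1 := by
  obtain ⟨p, hp⟩ := CharP.exists F
  have hprime : p.Prime := CharP.char_is_prime F p
  have : Fact p.Prime := ⟨hprime⟩
  have h1 : ∀ n : ℕ, ∀ x, ((1 + X : Module.End F V) ^ n) x = x + n • X x := by
    intro n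
    induction n with
    | zero => intro x; simp
    | succ n ih =>
      intro x
      rw [pow_succ, Module.End.mul_apply, ih]
      simp only [LinearMap.add_apply, Module.End.one_apply, map_add, hX, add_zero, add_smul,
        one_smul]
      abel
  have h2 : (1 + X : Module.End F V) ^ p = 1 := by
    ext x
    rw [h1, Module.End.one_apply]
    have : (p : ℕ) • X x = 0 := by
      rw [← Nat.cast_smul_eq_nsmul F, CharP.cast_eq_zero, zero_smul]
    rw [this, add_zero]
  have h3 : LinearMap.det (1 + X : Module.End F V) ^ p = 1 := by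
    rw [← map_pow, h2, map_one]
  have h4 : LinearMap.det (1 + X : Module.End F V) = 1 := by
    have h5 : (LinearMap.det (1 + X : Module.End F V) - 1) ^ p = 0 := by
      rw [sub_pow_char, h3, one_pow, sub_self]
    exact sub_eq_zero.mp (pow_eq_zero_iff hprime.ne_zero |>.mp h5)
  apply Units.ext
  rw [LinearEquiv.coe_det, Units.val_one]
  exact h4

/-- a projection onto `B` that kills `U` -/
theorem exists_proj {U B : Submodule F V} (hBU : Disjoint B U) :
    ∃ π : V →ₗ[F] B, (∀ u ∈ U, π u = 0) ∧ ∀ b : B, π b = b := by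
  have hinj : LinearMap.ker (U.mkQ ∘ₗ B.subtype) = ⊥ := by
    rw [LinearMap.ker_eq_bot']
    rintro ⟨b, hb⟩ h
    rw [LinearMap.comp_apply, Submodule.subtype_apply, Submodule.mkQ_apply,
      Submodule.Quotient.mk_eq_zero] at h
    apply Subtype.ext
    exact (Submodule.disjoint_def.mp hBU) b hb h
  obtain ⟨r, hr⟩ := LinearMap.exists_leftInverse_of_injective _ hinj
  refine ⟨r ∘ₗ U.mkQ, ?_, ?_⟩
  · intro u hu
    rw [LinearMap.comp_apply, Submodule.mkQ_apply, (Submodule.Quotient.mk_eq_zero U).mpr hu,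
      map_zero]
  · intro b
    exact LinearMap.congr_fun hr b

/-- two subspaces of the same dimension and a third one in the same position to both -/
theorem exists_block [Finite F] {U W : Submodule F V} (hUW : finrank F U = finrank F W) :
    ∃ g h : V ≃ₗ[F] V, LinearEquiv.det g = 1 ∧ LinearEquiv.det h = 1 ∧
      U.map (g : V →ₗ[F] V) = U ∧ W.map (h : V →ₗ[F] V) = W ∧
      W.map (g : V →ₗ[F] V) = U.map (h : V →ₗ[F] V) := by
  obtain ⟨C, hC⟩ := Submodule.exists_isCompl (U ⊓ W)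
  have hA : U ⊓ W ⊔ C ⊓ U = U := by
    rw [← sup_inf_assoc_of_le C (inf_le_left : U ⊓ W ≤ U), hC.sup_eq_top, top_inf_eq]
  have hB : U ⊓ W ⊔ C ⊓ W = W := by
    rw [← sup_inf_assoc_of_le C (inf_le_right : U ⊓ W ≤ W), hC.sup_eq_top, top_inf_eq]
  have hAI : U ⊓ W ⊓ (C ⊓ U) = ⊥ := by
    rw [← inf_assoc, hC.inf_eq_bot, bot_inf_eq]
  have hBI : U ⊓ W ⊓ (C ⊓ W) = ⊥ := by
    rw [← inf_assoc, hC.inf_eq_bot, bot_inf_eq]
  have hfin : finrank F (C ⊓ W : Submodule F V) = finrank F (C ⊓ U : Submodule F V) := by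
    have h1 := Submodule.finrank_sup_add_finrank_inf_eq (U ⊓ W) (C ⊓ U)
    have h2 := Submodule.finrank_sup_add_finrank_inf_eq (U ⊓ W) (C ⊓ W)
    rw [hA, hAI, finrank_bot] at h1
    rw [hB, hBI, finrank_bot] at h2
    omega
  have hBU : Disjoint (C ⊓ W) U := by
    rw [Submodule.disjoint_def]
    intro x hx hxU
    rw [mem_inf] at hx
    exact (Submodule.disjoint_def.mp hC.disjoint) x (mem_inf.mpr ⟨hxU, hx.2⟩) hx.1
  have hAW : Disjoint (C ⊓ U) W := by
    rw [Submodule.disjoint_def]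
    intro x hx hxW
    rw [mem_inf] at hx
    exact (Submodule.disjoint_def.mp hC.disjoint) x (mem_inf.mpr ⟨hx.2, hxW⟩) hx.1
  obtain ⟨π, hπ0, hπ1⟩ := exists_proj hBU
  obtain ⟨π', hπ'0, hπ'1⟩ := exists_proj hAW
  let e : (C ⊓ W : Submodule F V) ≃ₗ[F] (C ⊓ U : Submodule F V) := LinearEquiv.ofFinrankEq _ _ hfin
  let X : V →ₗ[F] V := (C ⊓ U).subtype ∘ₗ (e : _ →ₗ[F] _) ∘ₗ π
  let Y : V →ₗ[F] V := (C ⊓ W).subtype ∘ₗ (e.symm : _ →ₗ[F] _) ∘ₗ π'
  have hXa : ∀ x, X x = (e (π x) : V) := fun x => rfl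
  have hYa : ∀ x, Y x = (e.symm (π' x) : V) := fun x => rfl
  have hXU : ∀ u ∈ U, X u = 0 := by
    intro u hu
    rw [hXa, hπ0 u hu, map_zero, Submodule.coe_zero]
  have hYW : ∀ w ∈ W, Y w = 0 := by
    intro w hw
    rw [hYa, hπ'0 w hw, map_zero, Submodule.coe_zero]
  have hX : ∀ x, X (X x) = 0 := fun x => hXU _ (mem_inf.mp (e (π x)).2).2
  have hY : ∀ x, Y (Y x) = 0 := fun x => hYW _ (mem_inf.mp (e.symm (π' x)).2).2
  refine ⟨uni X hX, uni Y hY, det_uni X hX, det_uni Y hY, ?_, ?_, ?_⟩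
  · apply map_eq_of_le _ rfl
    intro x hx
    rw [uni_apply, hXU x hx, add_zero]
    exact hx
  · apply map_eq_of_le _ rfl
    intro x hx
    rw [uni_apply, hYW x hx, add_zero]
    exact hx
  · apply Submodule.eq_of_le_of_finrank_eq
    · rintro _ ⟨w, hw, rfl⟩
      rw [← hB] at hw
      obtain ⟨i, hi, b, hb, rfl⟩ := mem_sup.mp hw
      have hi' := mem_inf.mp hi
      refine ⟨i + e ⟨b, hb⟩, ?_, ?_⟩
      · exact U.add_mem hi'.1 (mem_inf.mp (e ⟨b, hb⟩).2).2
      · show uni Y hY _ = uni X hX _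
        rw [uni_apply, uni_apply, map_add, map_add, hXU i hi'.1, hYW i hi'.2, hXa, hYa]
        have h1 : π b = ⟨b, hb⟩ := hπ1 ⟨b, hb⟩
        have h2 : π' (e ⟨b, hb⟩ : V) = e ⟨b, hb⟩ := hπ'1 (e ⟨b, hb⟩)
        rw [h1, h2, LinearEquiv.symm_apply_apply]
        abel
    · rw [finrank_map', finrank_map', hUW]

end Pool.Agent.Helper29.FT2
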